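import Mathlib

/-! Square-free self-shuffles of a word: definitions. -/

namespace Pool.Agent.H53.SQ

variable {α : Type*}

/-- `shuf β u v` is the shuffle of `u` and `v` conducted by `β`: reading `β`, the value `false`
takes the next letter of `u` and the value `true` takes the next letter of `v`. -/
def shuf : List Bool → List α → List α → List α
  | false :: β, a :: u, v => a :: shuf β u v
  | true :: β, u, b :: v => b :: shuf β u v
  | _, _, _ => []

/-- the set `S(u)` of the words obtained by shuffling `u` with itself -/
def selfShuffles (u : List α) : Set (List α) :=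
  {w | ∃ β : List Bool, β.count false = u.length ∧ β.count true = u.length ∧ w = shuf β u u}

/-- no factor is of the form `xx` with `x` non-empty -/
def SquareFree (w : List α) : Prop := ∀ x : List α, x ≠ [] → ¬ (x ++ x) <:+: w

/-- `S(u)` contains exactly one square-free word -/
def ExactlyOne (u : List α) : Prop := ∃! w, w ∈ selfShuffles u ∧ SquareFree w

/-- shuffles of two words, inductively -/
inductive Shuf : List α → List α → List α → Prop
  | nil : Shuf [] [] []
  | left {a : α} {u v w : List α} : Shuf u v w → Shuf (a :: u) v (a :: w)
  | right {a : α} {u v w : List α} : Shuf u v w → Shuf u (a :: v) (a :: w)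

theorem Shuf.of_shuf : ∀ (β : List Bool) (u v : List α), β.count false = u.length →
    β.count true = v.length → Shuf u v (shuf β u v)
  | [], [], [], _, _ => by simpa [shuf] using Shuf.nil
  | [], [], _ :: _, _, h => by simp at h
  | [], _ :: _, _, h, _ => by simp at h
  | false :: β, [], v, h, _ => by simp at h
  | false :: β, a :: u, v, h, h' => by
      simp only [shuf]
      exact Shuf.left (Shuf.of_shuf β u v (by simpa using h) (by simpa using h'))
  | true :: β, u, [], _, h => by simp at h
  | true :: β, u, b :: v, h, h' => by
      have : shuf (true :: β) u (b :: v) = b :: shuf β u v := by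
        cases u <;> rfl
      rw [this]
      exact Shuf.right (Shuf.of_shuf β u v (by simpa using h) (by simpa using h'))

theorem Shuf.exists_shuf {u v w : List α} (h : Shuf u v w) :
    ∃ β : List Bool, β.count false = u.length ∧ β.count true = v.length ∧ w = shuf β u v := by
  induction h with
  | nil => exact ⟨[], rfl, rfl, rfl⟩
  | @left a u v w _ ih =>
      obtain ⟨β, h1, h2, h3⟩ := ih
      refine ⟨false :: β, by simp [h1], by simpa using h2, ?_⟩
      rw [h3]; rfl
  | @right a u v w _ ih =>
      obtain ⟨β, h1, h2, h3⟩ := ih
      refine ⟨true :: β, by simpa using h1, by simp [h2], ?_⟩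
      rw [h3]
      cases u <;> rfl

theorem mem_selfShuffles {u w : List α} : w ∈ selfShuffles u ↔ Shuf u u w := by
  constructor
  · rintro ⟨β, h1, h2, rfl⟩
    exact Shuf.of_shuf β u u h1 h2
  · intro h
    exact h.exists_shuf

theorem Shuf.symm {u v w : List α} (h : Shuf u v w) : Shuf v u w := by
  induction h with
  | nil => exact Shuf.nil
  | left _ ih => exact Shuf.right ih
  | right _ ih => exact Shuf.left ih

theorem Shuf.length {u v w : List α} (h : Shuf u v w) : w.length = u.length + v.length := by
  induction h with
  | nil => rfl
  | left _ ih => simp only [List.length_cons, ih]; omega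
  | right _ ih => simp only [List.length_cons, ih]; omega

theorem Shuf.append {u v w u' v' w' : List α} (h : Shuf u v w) (h' : Shuf u' v' w') :
    Shuf (u ++ u') (v ++ v') (w ++ w') := by
  induction h with
  | nil => simpa using h'
  | left _ ih => exact Shuf.left ih
  | right _ ih => exact Shuf.right ih

theorem Shuf.map {β : Type*} (f : α → β) {u v w : List α} (h : Shuf u v w) :
    Shuf (u.map f) (v.map f) (w.map f) := by
  induction h with
  | nil => exact Shuf.nil
  | left _ ih => exact Shuf.left ih
  | right _ ih => exact Shuf.right ih

theorem SquareFree.factor {u w : List α} (h : SquareFree w) (hu : u <:+: w) : SquareFree u :=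
  fun x hx hxx => h x hx (hxx.trans hu)

theorem SquareFree.suffix_append {u w : List α} (h : SquareFree (u ++ w)) : SquareFree w :=
  h.factor (List.suffix_append u w).isInfix

theorem SquareFree.prefix_append {u w : List α} (h : SquareFree (u ++ w)) : SquareFree u :=
  h.factor (List.prefix_append u w).isInfix

theorem SquareFree.map {β : Type*} {f : α → β} (hf : Function.Injective f) {w : List α}
    (h : SquareFree w) : SquareFree (w.map f) := by
  rintro x hx ⟨s, t, hst⟩
  have h1 : (s ++ (x ++ x)) ++ t = w.map f := hst
  obtain ⟨l1, l2, hw, h2, h3⟩ := List.map_eq_append_iff.mp h1.symm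
  obtain ⟨l3, l4, hw', h4, h5⟩ := List.map_eq_append_iff.mp h2
  obtain ⟨l5, l6, hw'', h6, h7⟩ := List.map_eq_append_iff.mp h5
  have h8 : l5 = l6 := List.map_injective_iff.mpr hf (h6.trans h7.symm)
  subst h8
  refine h l5 ?_ ⟨l3, l2, ?_⟩
  · rintro rfl
    exact hx (by simpa using h6.symm)
  · rw [hw, hw', hw'']

theorem SquareFree.of_map {β : Type*} {f : α → β} {w : List α}
    (h : SquareFree (w.map f)) : SquareFree w := by
  rintro x hx ⟨s, t, hst⟩
  refine h (x.map f) (by simpa using hx) ⟨s.map f, t.map f, ?_⟩
  rw [← hst]
  simp

end Pool.Agent.H53.SQ
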