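import Pool.Agent.H53.SQ.Subst
import Pool.Agent.H53.SQ.Defs

/-! A fast test of square-freeness through bit planes. -/

namespace Pool.Agent.H53.SQ

/-- the positions of the letter `c` -/
def plane (c : ℕ) : List ℕ → ℕ
  | [] => 0
  | a :: l => cond (Nat.beq a c) (Nat.add (Nat.mul 2 (plane c l)) 1) (Nat.mul 2 (plane c l))

/-- three shifted copies joined -/
def comb (u h h' : ℕ) : ℕ := Nat.lor (Nat.lor u (Nat.shiftRight u h)) (Nat.shiftRight u h')

/-- position `s` is set only if one of the positions `s, …, s + p - 1` of `y` is set -/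
def win (y : ℕ) : ℕ → ℕ → ℕ
  | 0, _ => y
  | f + 1, p => cond (Nat.ble p 1) y
      (comb (win y f (Nat.div p 2)) (Nat.div p 2) (Nat.sub p (Nat.div p 2)))

/-- no square of period `p` -/
def okPer (A B n p : ℕ) : Bool :=
  Nat.beq (Nat.mod (win (Nat.lor (Nat.xor A (Nat.shiftRight A p)) (Nat.xor B (Nat.shiftRight B p)))
    9 p) (Nat.pow 2 (Nat.add (Nat.sub n (Nat.mul 2 p)) 1)))
    (Nat.sub (Nat.pow 2 (Nat.add (Nat.sub n (Nat.mul 2 p)) 1)) 1)

/-- no square of a period between `1` and the last argument -/
def okAll (A B n : ℕ) : ℕ → Bool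
  | 0 => true
  | p + 1 => and (okPer A B n (p + 1)) (okAll A B n p)

/-- no square -/
def sfBits (l : List ℕ) : Bool := okAll (plane 1 l) (plane 2 l) l.length (Nat.div l.length 2)

theorem plane_testBit (c : ℕ) (hc : c ≠ 0) : ∀ (l : List ℕ) (i : ℕ),
    (plane c l).testBit i = decide (l.getD i 0 = c)
  | [], i => by simp [plane, Ne.symm hc]
  | a :: l, i => by
      have h0 : plane c (a :: l) = 2 * plane c l + (decide (a = c)).toNat := by
        simp only [plane]
        by_cases h : a = c
        · subst h
          simp
        · have h1 : Nat.beq a c = false := by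
            rw [Bool.eq_false_iff, ne_eq, Nat.beq_eq]
            exact h
          rw [h1]
          simp [h]
      rw [h0]
      cases i with
      | zero =>
          rw [Nat.testBit_zero]
          by_cases h : a = c
          · simp [h]
          · simp [h]
      | succ i =>
          rw [Nat.testBit_succ]
          have h2 : (2 * plane c l + (decide (a = c)).toNat) / 2 = plane c l := by
            by_cases h : a = c
            · simp [h]; omega
            · simp [h]
          rw [h2, plane_testBit c hc l i]
          simp

theorem comb_spec (u h h' s : ℕ) : (comb u h h').testBit s =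
    (u.testBit s || u.testBit (h + s) || u.testBit (h' + s)) := by
  have e1 : comb u h h' = (u ||| (u >>> h)) ||| (u >>> h') := rfl
  rw [e1, Nat.testBit_or, Nat.testBit_or, Nat.testBit_shiftRight, Nat.testBit_shiftRight]

theorem win_spec (y : ℕ) : ∀ (f p s : ℕ), 1 ≤ p → (win y f p).testBit s = true →
    ∃ i, i < p ∧ y.testBit (s + i) = true
  | 0, p, s, hp, h => ⟨0, hp, by simpa [win] using h⟩
  | f + 1, p, s, hp, h => by
      simp only [win] at h
      by_cases hp1 : p ≤ 1
      · rw [show Nat.ble p 1 = true from Nat.ble_eq.mpr hp1] at h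
        exact ⟨0, hp, by simpa using h⟩
      · rw [show Nat.ble p 1 = false from by
          rw [Bool.eq_false_iff, ne_eq, Nat.ble_eq]; exact hp1] at h
        simp only [cond_false] at h
        rw [comb_spec] at h
        have hd : Nat.div p 2 = p / 2 := rfl
        have hs : Nat.sub p (p / 2) = p - p / 2 := rfl
        rw [hd, hs] at h
        simp only [Bool.or_eq_true] at h
        rcases h with (h | h) | h
        · obtain ⟨i, hi, hi'⟩ := win_spec y f (p / 2) s (by omega) h
          exact ⟨i, by omega, hi'⟩
        · obtain ⟨i, hi, hi'⟩ := win_spec y f (p / 2) (p / 2 + s) (by omega) h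
          exact ⟨p / 2 + i, by omega, by rw [← hi']; congr 1; omega⟩
        · obtain ⟨i, hi, hi'⟩ := win_spec y f (p / 2) (p - p / 2 + s) (by omega) h
          exact ⟨p - p / 2 + i, by omega, by rw [← hi']; congr 1; omega⟩

theorem okPer_spec (l : List ℕ) (p : ℕ) (hp : 1 ≤ p)
    (h : okPer (plane 1 l) (plane 2 l) l.length p = true) (s : ℕ) (hs : s + 2 * p ≤ l.length) :
    ∃ i, i < p ∧ l.getD (s + i) 0 ≠ l.getD (s + p + i) 0 := by
  unfold okPer at h
  rw [Nat.beq_eq] at h
  set y := Nat.lor (Nat.xor (plane 1 l) (Nat.shiftRight (plane 1 l) p))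
    (Nat.xor (plane 2 l) (Nat.shiftRight (plane 2 l) p)) with hy
  have h1 : (win y 9 p) % 2 ^ (l.length - 2 * p + 1) = 2 ^ (l.length - 2 * p + 1) - 1 := h
  have h2 : (win y 9 p).testBit s = true := by
    have h3 : ((win y 9 p) % 2 ^ (l.length - 2 * p + 1)).testBit s = true := by
      rw [h1, Nat.testBit_two_pow_sub_one]
      simp
      omega
    rw [Nat.testBit_mod_two_pow] at h3
    simp only [Bool.and_eq_true] at h3
    exact h3.2
  obtain ⟨i, hi, hi'⟩ := win_spec y 9 p s hp h2
  refine ⟨i, hi, ?_⟩
  intro heq
  have hy' : y = (plane 1 l ^^^ (plane 1 l >>> p)) ||| (plane 2 l ^^^ (plane 2 l >>> p)) := rfl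
  rw [hy', Nat.testBit_or, Nat.testBit_xor, Nat.testBit_xor, Nat.testBit_shiftRight,
    Nat.testBit_shiftRight, plane_testBit 1 (by norm_num), plane_testBit 1 (by norm_num),
    plane_testBit 2 (by norm_num), plane_testBit 2 (by norm_num)] at hi'
  have e : p + (s + i) = s + p + i := by omega
  rw [e, heq] at hi'
  simp at hi'

theorem okAll_spec (l : List ℕ) : ∀ (q : ℕ), okAll (plane 1 l) (plane 2 l) l.length q = true →
    ∀ p, 1 ≤ p → p ≤ q → okPer (plane 1 l) (plane 2 l) l.length p = true
  | 0, _, p, h1, h2 => by omega
  | q + 1, h, p, h1, h2 => by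
      simp only [okAll, Bool.and_eq_true] at h
      rcases Nat.eq_or_lt_of_le h2 with h3 | h3
      · rw [h3]; exact h.1
      · exact okAll_spec l q h.2 p h1 (by omega)

/-- the letters of a list as a function -/
def fn (l : List ℕ) (i : ℕ) : ℕ := l.getD i 0

theorem sfBits_spec {l : List ℕ} (h : sfBits l = true) : SF (fn l) l.length := by
  intro s p hp hs
  exact okPer_spec l p hp (okAll_spec l (l.length / 2) h p hp (by omega)) s hs

theorem squareFree_of_SF' {β : Type*} {l : List β} (d : β) (h : SF (fun i => l.getD i d) l.length) :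
    SquareFree l := by
  rintro x hx ⟨s, t, hst⟩
  have hxl : 1 ≤ x.length := by
    rcases x with _ | ⟨a, x⟩
    · exact absurd rfl hx
    · simp
  have hlen : l.length = s.length + (x.length + x.length) + t.length := by
    rw [← hst]; simp; omega
  obtain ⟨i, hi, hne⟩ := h s.length x.length hxl (by omega)
  apply hne
  have e : l = s ++ (x ++ (x ++ t)) := by rw [← hst]; simp
  rw [e]
  have h1 : (s ++ (x ++ (x ++ t))).getD (s.length + i) d = x.getD i d := by
    rw [List.getD_append_right _ _ _ _ (by omega), List.getD_append _ _ _ _ (by omega)]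
    congr 1
    omega
  have h2 : (s ++ (x ++ (x ++ t))).getD (s.length + x.length + i) d = x.getD i d := by
    rw [List.getD_append_right _ _ _ _ (by omega), List.getD_append_right _ _ _ _ (by omega),
      List.getD_append _ _ _ _ (by omega)]
    congr 1
    omega
  show (s ++ (x ++ (x ++ t))).getD (s.length + i) d = (s ++ (x ++ (x ++ t))).getD _ d
  rw [h1, h2]

theorem squareFree_of_SF {l : List ℕ} (h : SF (fn l) l.length) : SquareFree l :=
  squareFree_of_SF' 0 h

theorem SF_of_squareFree {β : Type*} {l : List β} {d : β} (h : SquareFree l) :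
    SF (fun i => l.getD i d) l.length := by
  intro s p hp hs
  by_contra hcon
  push Not at hcon
  refine h ((l.drop s).take p) ?_ ⟨l.take s, l.drop (s + p + p), ?_⟩
  · intro h0
    have : ((l.drop s).take p).length = 0 := by rw [h0]; rfl
    rw [List.length_take, List.length_drop] at this
    omega
  · have h1 : (l.drop s).take p = (l.drop (s + p)).take p := by
      apply List.ext_getElem
      · rw [List.length_take, List.length_drop, List.length_take, List.length_drop]
        omega
      · intro i h1 h2
        rw [List.getElem_take, List.getElem_take, List.getElem_drop, List.getElem_drop]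
        rw [List.length_take, List.length_drop] at h1
        have := hcon i (by omega)
        rw [List.getD_eq_getElem _ _ (by omega), List.getD_eq_getElem _ _ (by omega)] at this
        exact this
    have e2 : l.drop (s + p) = (l.drop (s + p)).take p ++ l.drop (s + p + p) := by
      conv_lhs => rw [← List.take_append_drop p (l.drop (s + p)), List.drop_drop]
    have e3 : l.drop s = (l.drop s).take p ++ l.drop (s + p) := by
      conv_lhs => rw [← List.take_append_drop p (l.drop s), List.drop_drop]
    calc l.take s ++ ((l.drop s).take p ++ (l.drop s).take p) ++ l.drop (s + p + p)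
        = l.take s ++ ((l.drop s).take p ++ ((l.drop (s + p)).take p ++ l.drop (s + p + p))) := by
          rw [← h1]; simp
      _ = l := by rw [← e2, ← e3, List.take_append_drop]

end Pool.Agent.H53.SQ
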