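import Pool.Agent.H53.SQ.Defs

/-! A checker for forced self-shuffles, with its correctness. -/

namespace Pool.Agent.H53.SQ

/-- the first `n` entries agree -/
def eqPre : ℕ → List ℕ → List ℕ → Bool
  | 0, _, _ => true
  | _ + 1, [], _ => false
  | _ + 1, _ :: _, [] => false
  | n + 1, a :: l, b :: m => and (Nat.beq a b) (eqPre n l m)

/-- some period among `p, …, p + f - 1` gives a square at the head of `l`; `q = l.drop p` -/
def hasSqFrom (l : List ℕ) : ℕ → List ℕ → ℕ → Bool
  | 0, _, _ => false
  | _ + 1, [], _ => false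
  | f + 1, b :: q, p => or (eqPre p l (b :: q)) (hasSqFrom l f q (p + 1))

/-- a square of period at most `P` at the head of `l` -/
def hasSq (P : ℕ) (l : List ℕ) : Bool := hasSqFrom l P l.tail 1

/-- in the state with output `w` (reversed) and remaining texts `r1 = r2.drop d` and `r2`, every
continuation makes a square within `k` letters -/
def dead (P : ℕ) : ℕ → List ℕ → List ℕ → List ℕ → ℕ → Bool
  | 0, _, _, _, _ => false
  | _ + 1, _, [], _, _ => false
  | k + 1, w, a :: r1, r2, 0 => or (hasSq P (a :: w)) (dead P k (a :: w) r1 r2 1)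
  | _ + 1, _, _ :: _, [], _ + 1 => false
  | k + 1, w, a :: r1, b :: r2, d + 1 =>
      and (or (hasSq P (a :: w)) (dead P k (a :: w) r1 (b :: r2) (d + 2)))
        (or (hasSq P (b :: w)) (dead P k (b :: w) (a :: r1) r2 d))

/-- the output must follow `cs` and end with both remaining texts equal to `C` -/
def step (P : ℕ) (C : List ℕ) : ℕ → List ℕ → List ℕ → List ℕ → List ℕ → ℕ → Bool
  | 0, _, _, _, _, _ => false
  | k + 1, [], w, r1, r2, d =>
      or (and (Nat.beq d 0) (decide (r2 = C))) (dead P k w r1 r2 d)
  | _ + 1, _ :: _, _, [], _, _ => false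
  | k + 1, c :: cs, w, a :: r1, r2, 0 =>
      or (hasSq P (a :: w)) (and (Nat.beq a c) (step P C k cs (a :: w) r1 r2 1))
  | _ + 1, _ :: _, _, _ :: _, [], _ + 1 => false
  | k + 1, c :: cs, w, a :: r1, b :: r2, d + 1 =>
      and (or (hasSq P (a :: w))
          (cond (Nat.beq a c) (step P C k cs (a :: w) r1 (b :: r2) (d + 2))
            (dead P k (a :: w) r1 (b :: r2) (d + 2))))
        (or (hasSq P (b :: w))
          (cond (Nat.beq b c) (step P C k cs (b :: w) (a :: r1) r2 d)
            (dead P k (b :: w) (a :: r1) r2 d)))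

/-- like `dead`, the remaining texts being the whole of what is left -/
def deadEnd (P : ℕ) : ℕ → List ℕ → List ℕ → List ℕ → ℕ → Bool
  | 0, _, _, _, _ => false
  | _ + 1, _, _, [], _ => false
  | _ + 1, _, [], _ :: _, 0 => false
  | k + 1, w, [], b :: r2, d + 1 => or (hasSq P (b :: w)) (deadEnd P k (b :: w) [] r2 d)
  | k + 1, w, a :: r1, b :: r2, 0 =>
      or (hasSq P (a :: w)) (deadEnd P k (a :: w) r1 (b :: r2) 1)
  | k + 1, w, a :: r1, b :: r2, d + 1 =>
      and (or (hasSq P (a :: w)) (deadEnd P k (a :: w) r1 (b :: r2) (d + 2)))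
        (or (hasSq P (b :: w)) (deadEnd P k (b :: w) (a :: r1) r2 d))

/-- the output must be `cs`, the remaining texts being the whole of what is left -/
def stepEnd (P : ℕ) : ℕ → List ℕ → List ℕ → List ℕ → List ℕ → ℕ → Bool
  | 0, _, _, _, _, _ => false
  | _ + 1, [], _, _, r2, _ => match r2 with
      | [] => true
      | _ :: _ => false
  | _ + 1, _ :: _, _, _, [], _ => false
  | _ + 1, _ :: _, _, [], _ :: _, 0 => false
  | k + 1, c :: cs, w, [], b :: r2, d + 1 =>
      or (hasSq P (b :: w)) (cond (Nat.beq b c) (stepEnd P k cs (b :: w) [] r2 d)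
            (deadEnd P k (b :: w) [] r2 d))
  | k + 1, c :: cs, w, a :: r1, b :: r2, 0 =>
      or (hasSq P (a :: w)) (and (Nat.beq a c) (stepEnd P k cs (a :: w) r1 (b :: r2) 1))
  | k + 1, c :: cs, w, a :: r1, b :: r2, d + 1 =>
      and (or (hasSq P (a :: w))
          (cond (Nat.beq a c) (stepEnd P k cs (a :: w) r1 (b :: r2) (d + 2))
            (deadEnd P k (a :: w) r1 (b :: r2) (d + 2))))
        (or (hasSq P (b :: w))
          (cond (Nat.beq b c) (stepEnd P k cs (b :: w) (a :: r1) r2 d)
            (deadEnd P k (b :: w) (a :: r1) r2 d)))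

theorem eqPre_spec : ∀ (n : ℕ) (l m : List ℕ), eqPre n l m = true →
    n ≤ l.length ∧ n ≤ m.length ∧ l.take n = m.take n
  | 0, l, m, _ => by simp
  | n + 1, [], m, h => by simp [eqPre] at h
  | n + 1, a :: l, [], h => by simp [eqPre] at h
  | n + 1, a :: l, b :: m, h => by
      simp only [eqPre, Bool.and_eq_true, Nat.beq_eq] at h
      obtain ⟨h1, h2, h3⟩ := eqPre_spec n l m h.2
      refine ⟨by simpa using h1, by simpa using h2, ?_⟩
      simp [h.1, h3]

theorem eqPre_of : ∀ (n : ℕ) (l m : List ℕ),
    n ≤ l.length → n ≤ m.length → l.take n = m.take n → eqPre n l m = true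
  | 0, l, m, _, _, _ => rfl
  | n + 1, [], m, h, _, _ => by simp at h
  | n + 1, a :: l, [], _, h, _ => by simp at h
  | n + 1, a :: l, b :: m, h1, h2, h3 => by
      simp only [List.take_succ_cons, List.cons.injEq] at h3
      simp only [eqPre, Bool.and_eq_true, Nat.beq_eq]
      exact ⟨h3.1, eqPre_of n l m (by simpa using h1) (by simpa using h2) h3.2⟩

/-- `w` is not square-free -/
theorem not_sf_of_head {l v : List ℕ} {p : ℕ} (hp : 1 ≤ p) (h : eqPre p l (l.drop p) = true) :
    ¬ SquareFree (l.reverse ++ v) := by
  intro hsf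
  obtain ⟨h1, h2, h3⟩ := eqPre_spec _ _ _ h
  have e1 : l = l.take p ++ (l.take p ++ (l.drop p).drop p) := by
    conv_lhs => rw [← List.take_append_drop p l, ← List.take_append_drop p (l.drop p)]
    rw [← h3]
  refine hsf (l.take p).reverse ?_ ⟨((l.drop p).drop p).reverse, v, ?_⟩
  · intro h0
    have : (l.take p).reverse.length = 0 := by rw [h0]; rfl
    rw [List.length_reverse, List.length_take] at this
    omega
  · conv_rhs => rw [e1]
    simp

theorem hasSqFrom_spec (l : List ℕ) : ∀ (f : ℕ) (q : List ℕ) (p : ℕ), hasSqFrom l f q p = true →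
    q = l.drop p → ∃ p', p ≤ p' ∧ eqPre p' l (l.drop p') = true
  | 0, q, p, h, _ => by simp [hasSqFrom] at h
  | f + 1, [], p, h, _ => by simp [hasSqFrom] at h
  | f + 1, b :: q, p, h, hq => by
      simp only [hasSqFrom, Bool.or_eq_true] at h
      rcases h with h | h
      · exact ⟨p, le_rfl, by rw [← hq]; exact h⟩
      · obtain ⟨p', h1, h2⟩ := hasSqFrom_spec l f q (p + 1) h (by
          have : (b :: q).tail = (l.drop p).tail := by rw [hq]
          rw [List.tail_drop] at this
          exact this)
        exact ⟨p', by omega, h2⟩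

theorem hasSq_spec {P : ℕ} {l v : List ℕ} (h : hasSq P l = true) :
    ¬ SquareFree (l.reverse ++ v) := by
  obtain ⟨p', h1, h2⟩ := hasSqFrom_spec l P l.tail 1 h (by rw [List.drop_one])
  exact not_sf_of_head h1 h2

theorem hasSqFrom_of (l : List ℕ) : ∀ (f : ℕ) (q : List ℕ) (p p' : ℕ),
    q = l.drop p → 1 ≤ p → p ≤ p' → p' < p + f → eqPre p' l (l.drop p') = true →
    hasSqFrom l f q p = true
  | 0, q, p, p', _, _, _, _, _ => by omega
  | f + 1, [], p, p', hq, hp, h1, _, h3 => by
      exfalso
      obtain ⟨_, h4, _⟩ := eqPre_spec _ _ _ h3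
      have h5 : (l.drop p).length = 0 := by rw [← hq]; rfl
      rw [List.length_drop] at h4 h5
      omega
  | f + 1, b :: q, p, p', hq, hp, h1, h2, h3 => by
      simp only [hasSqFrom, Bool.or_eq_true]
      rcases Nat.eq_or_lt_of_le h1 with h | h
      · left
        rw [hq, h]
        exact h3
      · right
        refine hasSqFrom_of l f q (p + 1) p' ?_ (by omega) h (by omega) h3
        have : (b :: q).tail = (l.drop p).tail := by rw [hq]
        rw [List.tail_drop] at this
        exact this

theorem dead_sound (P : ℕ) : ∀ (k : ℕ) (w r1 r2 : List ℕ) (d : ℕ) (e v : List ℕ),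
    dead P k w r1 r2 d = true → r1 = r2.drop d → Shuf (r1 ++ e) (r2 ++ e) v →
    ¬ SquareFree (w.reverse ++ v)
  | 0, w, r1, r2, d, e, v, h, _, _ => by simp [dead] at h
  | k + 1, w, [], r2, d, e, v, h, _, _ => by simp [dead] at h
  | k + 1, w, a :: r1, r2, 0, e, v, h, hd, hs => by
      simp only [dead, Bool.or_eq_true] at h
      have hd' : r2 = a :: r1 := by simpa using hd.symm
      subst hd'
      have key : ∀ v1, Shuf (r1 ++ e) (a :: r1 ++ e) v1 →
          ¬ SquareFree (w.reverse ++ (a :: v1)) := by
        intro v1 hv1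
        have e1 : w.reverse ++ (a :: v1) = (a :: w).reverse ++ v1 := by simp
        rw [e1]
        rcases h with h | h
        · exact hasSq_spec h
        · exact dead_sound P k (a :: w) r1 (a :: r1) 1 e v1 h (by simp) hv1
      cases hs with
      | left h1 => exact key _ h1
      | right h1 => exact key _ h1.symm
  | k + 1, w, a :: r1, [], d + 1, e, v, h, _, _ => by simp [dead] at h
  | k + 1, w, a :: r1, b :: r2, d + 1, e, v, h, hd, hs => by
      simp only [dead, Bool.and_eq_true, Bool.or_eq_true] at h
      have hd1 : a :: r1 = r2.drop d := by simpa using hd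
      have hd2 : r1 = (b :: r2).drop (d + 2) := by
        have h0 : (a :: r1).tail = (r2.drop d).tail := by rw [hd1]
        rw [List.tail_drop] at h0
        simpa using h0
      cases hs with
      | @left _ _ _ v1 h1 =>
          have e1 : w.reverse ++ (a :: v1) = (a :: w).reverse ++ v1 := by simp
          rw [e1]
          rcases h.1 with h | h
          · exact hasSq_spec h
          · exact dead_sound P k (a :: w) r1 (b :: r2) (d + 2) e v1 h hd2 h1
      | @right _ _ _ v1 h1 =>
          have e1 : w.reverse ++ (b :: v1) = (b :: w).reverse ++ v1 := by simp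
          rw [e1]
          rcases h.2 with h | h
          · exact hasSq_spec h
          · exact dead_sound P k (b :: w) (a :: r1) r2 d e v1 h hd1 h1

theorem step_sound (P : ℕ) (C : List ℕ) : ∀ (k : ℕ) (cs w r1 r2 : List ℕ) (d : ℕ) (e v : List ℕ),
    step P C k cs w r1 r2 d = true → r1 = r2.drop d → Shuf (r1 ++ e) (r2 ++ e) v →
    SquareFree (w.reverse ++ v) → ∃ v', v = cs ++ v' ∧ Shuf (C ++ e) (C ++ e) v'
  | 0, cs, w, r1, r2, d, e, v, h, _, _, _ => by simp [step] at h
  | k + 1, [], w, r1, r2, d, e, v, h, hd, hs, hsf => by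
      simp only [step, Bool.or_eq_true, Bool.and_eq_true, Nat.beq_eq, decide_eq_true_eq] at h
      rcases h with ⟨h1, h2⟩ | h
      · subst h1
        subst h2
        refine ⟨v, rfl, ?_⟩
        have : r1 = r2 := by simpa using hd
        rw [this] at hs
        exact hs
      · exact absurd hsf (dead_sound P k w r1 r2 d e v h hd hs)
  | k + 1, c :: cs, w, [], r2, d, e, v, h, _, _, _ => by simp [step] at h
  | k + 1, c :: cs, w, a :: r1, r2, 0, e, v, h, hd, hs, hsf => by
      simp only [step, Bool.or_eq_true, Bool.and_eq_true, Nat.beq_eq] at h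
      have hd' : r2 = a :: r1 := by simpa using hd.symm
      subst hd'
      have key : ∀ v1, Shuf (r1 ++ e) (a :: r1 ++ e) v1 → SquareFree (w.reverse ++ (a :: v1)) →
          ∃ v', a :: v1 = c :: cs ++ v' ∧ Shuf (C ++ e) (C ++ e) v' := by
        intro v1 hv1 hsf1
        have e1 : w.reverse ++ (a :: v1) = (a :: w).reverse ++ v1 := by simp
        rw [e1] at hsf1
        rcases h with h | ⟨h, h'⟩
        · exact absurd hsf1 (hasSq_spec h)
        · obtain ⟨v', h2, h3⟩ := step_sound P C k cs (a :: w) r1 (a :: r1) 1 e v1 h' (by simp) hv1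
            hsf1
          exact ⟨v', by rw [h, h2]; rfl, h3⟩
      cases hs with
      | left h1 => exact key _ h1 hsf
      | right h1 => exact key _ h1.symm hsf
  | k + 1, c :: cs, w, a :: r1, [], d + 1, e, v, h, _, _, _ => by simp [step] at h
  | k + 1, c :: cs, w, a :: r1, b :: r2, d + 1, e, v, h, hd, hs, hsf => by
      simp only [step, Bool.and_eq_true, Bool.or_eq_true, cond_eq_ite] at h
      have hd1 : a :: r1 = r2.drop d := by simpa using hd
      have hd2 : r1 = (b :: r2).drop (d + 2) := by
        have h0 : (a :: r1).tail = (r2.drop d).tail := by rw [hd1]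
        rw [List.tail_drop] at h0
        simpa using h0
      cases hs with
      | @left _ _ _ v1 h1 =>
          have e1 : w.reverse ++ (a :: v1) = (a :: w).reverse ++ v1 := by simp
          rw [e1] at hsf
          rcases h.1 with h | h
          · exact absurd hsf (hasSq_spec h)
          · split at h
            · rename_i hac
              rw [Nat.beq_eq] at hac
              obtain ⟨v', h2, h3⟩ := step_sound P C k cs (a :: w) r1 (b :: r2) (d + 2) e v1 h hd2
                h1 hsf
              exact ⟨v', by rw [hac, h2]; rfl, h3⟩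
            · exact absurd hsf (dead_sound P k (a :: w) r1 (b :: r2) (d + 2) e v1 h hd2 h1)
      | @right _ _ _ v1 h1 =>
          have e1 : w.reverse ++ (b :: v1) = (b :: w).reverse ++ v1 := by simp
          rw [e1] at hsf
          rcases h.2 with h | h
          · exact absurd hsf (hasSq_spec h)
          · split at h
            · rename_i hac
              rw [Nat.beq_eq] at hac
              obtain ⟨v', h2, h3⟩ := step_sound P C k cs (b :: w) (a :: r1) r2 d e v1 h hd1
                h1 hsf
              exact ⟨v', by rw [hac, h2]; rfl, h3⟩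
            · exact absurd hsf (dead_sound P k (b :: w) (a :: r1) r2 d e v1 h hd1 h1)

theorem deadEnd_sound (P : ℕ) : ∀ (k : ℕ) (w r1 r2 : List ℕ) (d : ℕ) (v : List ℕ),
    deadEnd P k w r1 r2 d = true → r1 = r2.drop d → Shuf r1 r2 v →
    ¬ SquareFree (w.reverse ++ v)
  | 0, w, r1, r2, d, v, h, _, _ => by simp [deadEnd] at h
  | k + 1, w, r1, [], d, v, h, _, _ => by
      cases r1 <;> simp [deadEnd] at h
  | k + 1, w, [], b :: r2, 0, v, h, _, _ => by simp [deadEnd] at h
  | k + 1, w, [], b :: r2, d + 1, v, h, hd, hs => by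
      simp only [deadEnd, Bool.or_eq_true] at h
      have hd1 : [] = r2.drop d := by simpa using hd
      cases hs with
      | @right _ _ _ v1 h1 =>
          have e1 : w.reverse ++ (b :: v1) = (b :: w).reverse ++ v1 := by simp
          rw [e1]
          rcases h with h | h
          · exact hasSq_spec h
          · exact deadEnd_sound P k (b :: w) [] r2 d v1 h hd1 h1
  | k + 1, w, a :: r1, b :: r2, 0, v, h, hd, hs => by
      simp only [deadEnd, Bool.or_eq_true] at h
      have hd' : b :: r2 = a :: r1 := by simpa using hd.symm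
      rw [hd'] at h hs
      have key : ∀ v1, Shuf r1 (a :: r1) v1 → ¬ SquareFree (w.reverse ++ (a :: v1)) := by
        intro v1 hv1
        have e1 : w.reverse ++ (a :: v1) = (a :: w).reverse ++ v1 := by simp
        rw [e1]
        rcases h with h | h
        · exact hasSq_spec h
        · exact deadEnd_sound P k (a :: w) r1 (a :: r1) 1 v1 h (by simp) hv1
      cases hs with
      | left h1 => exact key _ h1
      | right h1 => exact key _ h1.symm
  | k + 1, w, a :: r1, b :: r2, d + 1, v, h, hd, hs => by
      simp only [deadEnd, Bool.and_eq_true, Bool.or_eq_true] at h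
      have hd1 : a :: r1 = r2.drop d := by simpa using hd
      have hd2 : r1 = (b :: r2).drop (d + 2) := by
        have h0 : (a :: r1).tail = (r2.drop d).tail := by rw [hd1]
        rw [List.tail_drop] at h0
        simpa using h0
      cases hs with
      | @left _ _ _ v1 h1 =>
          have e1 : w.reverse ++ (a :: v1) = (a :: w).reverse ++ v1 := by simp
          rw [e1]
          rcases h.1 with h | h
          · exact hasSq_spec h
          · exact deadEnd_sound P k (a :: w) r1 (b :: r2) (d + 2) v1 h hd2 h1
      | @right _ _ _ v1 h1 =>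
          have e1 : w.reverse ++ (b :: v1) = (b :: w).reverse ++ v1 := by simp
          rw [e1]
          rcases h.2 with h | h
          · exact hasSq_spec h
          · exact deadEnd_sound P k (b :: w) (a :: r1) r2 d v1 h hd1 h1

theorem stepEnd_sound (P : ℕ) : ∀ (k : ℕ) (cs w r1 r2 : List ℕ) (d : ℕ) (v : List ℕ),
    stepEnd P k cs w r1 r2 d = true → r1 = r2.drop d → Shuf r1 r2 v →
    SquareFree (w.reverse ++ v) → v = cs
  | 0, cs, w, r1, r2, d, v, h, _, _, _ => by simp [stepEnd] at h
  | k + 1, [], w, r1, [], d, v, h, hd, hs, _ => by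
      have : r1 = [] := by simpa using hd
      subst this
      cases hs
      rfl
  | k + 1, [], w, r1, b :: r2, d, v, h, _, _, _ => by simp [stepEnd] at h
  | k + 1, c :: cs, w, r1, [], d, v, h, _, _, _ => by
      cases r1 <;> simp [stepEnd] at h
  | k + 1, c :: cs, w, [], b :: r2, 0, v, h, _, _, _ => by simp [stepEnd] at h
  | k + 1, c :: cs, w, [], b :: r2, d + 1, v, h, hd, hs, hsf => by
      simp only [stepEnd, Bool.or_eq_true, cond_eq_ite] at h
      have hd1 : [] = r2.drop d := by simpa using hd
      cases hs with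
      | @right _ _ _ v1 h1 =>
          have e1 : w.reverse ++ (b :: v1) = (b :: w).reverse ++ v1 := by simp
          rw [e1] at hsf
          rcases h with h | h
          · exact absurd hsf (hasSq_spec h)
          · split at h
            · rename_i hac
              rw [Nat.beq_eq] at hac
              rw [hac, stepEnd_sound P k cs (b :: w) [] r2 d v1 h hd1 h1 hsf]
            · exact absurd hsf (deadEnd_sound P k (b :: w) [] r2 d v1 h hd1 h1)
  | k + 1, c :: cs, w, a :: r1, b :: r2, 0, v, h, hd, hs, hsf => by
      simp only [stepEnd, Bool.or_eq_true, Bool.and_eq_true, Nat.beq_eq] at h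
      have hd' : b :: r2 = a :: r1 := by simpa using hd.symm
      rw [hd'] at h hs
      have key : ∀ v1, Shuf r1 (a :: r1) v1 → SquareFree (w.reverse ++ (a :: v1)) →
          a :: v1 = c :: cs := by
        intro v1 hv1 hsf1
        have e1 : w.reverse ++ (a :: v1) = (a :: w).reverse ++ v1 := by simp
        rw [e1] at hsf1
        rcases h with h | ⟨h, h'⟩
        · exact absurd hsf1 (hasSq_spec h)
        · rw [h, stepEnd_sound P k cs (a :: w) r1 (a :: r1) 1 v1 h' (by simp) hv1 hsf1]
      cases hs with
      | left h1 => exact key _ h1 hsf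
      | right h1 => exact key _ h1.symm hsf
  | k + 1, c :: cs, w, a :: r1, b :: r2, d + 1, v, h, hd, hs, hsf => by
      simp only [stepEnd, Bool.and_eq_true, Bool.or_eq_true, cond_eq_ite] at h
      have hd1 : a :: r1 = r2.drop d := by simpa using hd
      have hd2 : r1 = (b :: r2).drop (d + 2) := by
        have h0 : (a :: r1).tail = (r2.drop d).tail := by rw [hd1]
        rw [List.tail_drop] at h0
        simpa using h0
      cases hs with
      | @left _ _ _ v1 h1 =>
          have e1 : w.reverse ++ (a :: v1) = (a :: w).reverse ++ v1 := by simp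
          rw [e1] at hsf
          rcases h.1 with h | h
          · exact absurd hsf (hasSq_spec h)
          · split at h
            · rename_i hac
              rw [Nat.beq_eq] at hac
              rw [hac, stepEnd_sound P k cs (a :: w) r1 (b :: r2) (d + 2) v1 h hd2 h1 hsf]
            · exact absurd hsf (deadEnd_sound P k (a :: w) r1 (b :: r2) (d + 2) v1 h hd2 h1)
      | @right _ _ _ v1 h1 =>
          have e1 : w.reverse ++ (b :: v1) = (b :: w).reverse ++ v1 := by simp
          rw [e1] at hsf
          rcases h.2 with h | h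
          · exact absurd hsf (hasSq_spec h)
          · split at h
            · rename_i hac
              rw [Nat.beq_eq] at hac
              rw [hac, stepEnd_sound P k cs (b :: w) (a :: r1) r2 d v1 h hd1 h1 hsf]
            · exact absurd hsf (deadEnd_sound P k (b :: w) (a :: r1) r2 d v1 h hd1 h1)

end Pool.Agent.H53.SQ
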