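import Pool.Agent.H53.SQ.Data
import Pool.Agent.H53.SQ.Bits

/-! Facts on the five images. -/

namespace Pool.Agent.H53.SQ

/-- the five images -/
def W5 : Fin 5 → List ℕ := ![NW0, NW1, NW2, NW3, NW4]

/-- their classes -/
def c5 : Fin 5 → ℕ := ![0, 1, 1, 2, 2]

theorem W5_length : ∀ a : Fin 5, (W5 a).length = 56 := by
  decide +kernel

theorem trip : ∀ a b c : Fin 5, c5 a ≠ c5 b → c5 b ≠ c5 c →
    sfBits (W5 a ++ (W5 b ++ W5 c)) = true := by
  decide +kernel

theorem sync5 : ∀ a b c : Fin 5, c5 b ≠ c5 c → ∀ r : Fin 55,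
    eqPre 56 ((W5 b ++ W5 c).drop (r.val + 1)) (W5 a) = false := by
  decide +kernel

theorem inj5 : ∀ a b : Fin 5, c5 a ≠ c5 b → W5 a ≠ W5 b := by
  decide +kernel

/-- a word that is not a factor of the images -/
def MK : List ℕ := [2, 1, 0, 2, 1, 2, 0, 1, 2]

theorem mark5 : ∀ a b : Fin 5, c5 a ≠ c5 b → ∀ r : Fin 104,
    eqPre 9 ((W5 a ++ W5 b).drop r.val) MK = false := by
  decide +kernel

end Pool.Agent.H53.SQ
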