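import Pool.Agent.H53.SQ.Tails
import Pool.Agent.H53.SQ.Facts

/-! Facts on the final pieces. -/

namespace Pool.Agent.H53.SQ

theorem tails_length : tails.length = 28 := by decide +kernel

theorem tails_end : ∀ x ∈ tails, stepEnd x.1 93 x.2.2.1 [] x.2.1 x.2.1 0 = true := by
  decide +kernel

theorem tails_shuf : ∀ x ∈ tails, shuf x.2.2.2 x.2.1 x.2.1 = x.2.2.1 ∧
    x.2.2.2.count false = x.2.1.length ∧ x.2.2.2.count true = x.2.1.length := by
  decide +kernel

theorem tails_lens : ∀ j : Fin 28, ((tails.getD j.val (0, [], [], [])).2.1).length = 19 + j.val := by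
  decide +kernel

theorem tails_pre : ∀ x ∈ tails, x.2.1 = NC ++ x.2.1.drop 14 := by
  decide +kernel

theorem tails_lt : ∀ x ∈ tails, ∀ y ∈ x.2.1, y < 3 := by
  decide +kernel

theorem tails_short : ∀ x ∈ tails, x.2.2.1.length ≤ 112 := by
  decide +kernel

theorem tails_14 : ∀ x ∈ tails, ∀ c : Fin 5, ∀ i : Fin 14,
    x.2.2.1.getD i.val 0 = (W5 c).getD i.val 0 := by
  decide +kernel

theorem tails_mark : ∀ x ∈ tails, ∀ i : Fin 9, x.2.2.1.getD (6 + i.val) 0 = MK.getD i.val 0 := by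
  decide +kernel

theorem tails_win : ∀ x ∈ tails, ∀ a b : Fin 5, c5 a ≠ c5 b →
    sfBits (W5 a ++ (W5 b ++ x.2.2.1)) = true := by
  decide +kernel

theorem smalls_end : ∀ x ∈ smalls, stepEnd x.1 37 x.2.2.1 [] x.2.1 x.2.1 0 = true := by
  decide +kernel

theorem smalls_shuf : ∀ x ∈ smalls, shuf x.2.2.2 x.2.1 x.2.1 = x.2.2.1 ∧
    x.2.2.2.count false = x.2.1.length ∧ x.2.2.2.count true = x.2.1.length := by
  decide +kernel

theorem smalls_lt : ∀ x ∈ smalls, ∀ y ∈ x.2.1, y < 3 := by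
  decide +kernel

theorem smalls_sf : ∀ x ∈ smalls, sfBits x.2.2.1 = true := by
  decide +kernel

theorem smalls_lens : smalls.map (fun x => x.2.1.length) =
    [3, 6, 7, 8, 9, 10, 11, 12, 13, 14, 15, 16, 17, 18] := by
  decide +kernel

end Pool.Agent.H53.SQ
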