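import Pool.Agent.H53.SQ.Main
import Pool.Agent.H53.SQ.TailFacts

/-! The number of words of a given length. -/

namespace Pool.Agent.H53.SQ

theorem stepEnd_forced {P k : ℕ} {F G : List ℕ} (h : stepEnd P k G [] F F 0 = true) (v : List ℕ)
    (hv : Shuf F F v) (hsf : SquareFree v) : v = G :=
  stepEnd_sound P k G [] F F 0 v h (by simp) hv (by simpa using hsf)

theorem shuf_mem_lt {U W : List ℕ} (h : Shuf U U W) (hU : ∀ a ∈ U, a < 3) : ∀ a ∈ W, a < 3 := by
  intro a ha
  rcases h.mem a ha with h | h <;> exact hU a h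

theorem map_c5_w9 (t : List (Fin 9)) : (t.map w9).map c5 = (t.map cl9).map Fin.val := by
  rw [List.map_map, List.map_map]
  apply List.map_congr_left
  intro a _
  exact c5_w9 a

theorem tail_sf {x : ℕ × List ℕ × List ℕ × List Bool} (hx : x ∈ tails) (t : List (Fin 9))
    (c0 c1 c2 : Fin 3) (ht : SquareFree (c0 :: c1 :: (t.map cl9 ++ [c2]))) :
    SquareFree (psi t ++ x.2.2.1) := by
  set T : List (Fin 5) := rep5 c0 :: rep5 c1 :: (t.map w9 ++ [rep5 c2]) with hT
  set T' : List (Fin 5) := rep5 c0 :: rep5 c1 :: t.map w9 with hT'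
  have hTT : T = T' ++ [rep5 c2] := by simp [hT, hT']
  have hl' : T'.length = t.length + 2 := by simp [hT']
  have hl : T.length = t.length + 3 := by simp [hT]
  have h1 : T.map c5 = (c0 :: c1 :: (t.map cl9 ++ [c2])).map Fin.val := by
    simp only [hT, List.map_cons, List.map_append, map_c5_w9, c5_rep5, List.map_nil]
  have h2 : SquareFree (T.map c5) := by
    rw [h1]
    exact ht.map Fin.val_injective
  have h3 := SF_of_squareFree (d := c5 0) h2
  rw [List.length_map, hl] at h3
  have h4 : SF (fun i => c5 (T.getD i 0)) (t.length + 2 + 1) := by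
    refine SF_congr ?_ h3
    intro i _
    show (T.map c5).getD i (c5 0) = _
    rw [List.getD_map]
  have h5 := glue_sf (fun i => T.getD i 0) (t.length + 2) (by omega) h4 x.2.2.1 (tails_short x hx)
    (fun c i hi => tails_14 x hx c ⟨i, hi⟩) (fun i hi => tails_mark x hx ⟨i, hi⟩)
    (tails_win x hx)
  have h6 : SquareFree (T'.flatMap W5 ++ x.2.2.1) := by
    apply squareFree_of_SF
    have hlen : (T'.flatMap W5).length = (t.length + 2) * 56 := by
      rw [flatMap_length W5 56 W5_length, hl']
    rw [List.length_append, hlen]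
    refine SF_congr ?_ h5
    intro i hi
    by_cases hc : i < (t.length + 2) * 56
    · rw [if_pos hc, fn_append_left (by rw [hlen]; exact hc),
        fn_flatMap W5 56 (by norm_num) W5_length 0 T' i (by rw [hl']; exact hc)]
      unfold img
      show w5f (T.getD (i / 56) 0) (i % 56) = fn (W5 (T'.getD (i / 56) 0)) (i % 56)
      have : T.getD (i / 56) 0 = T'.getD (i / 56) 0 := by
        rw [hTT, List.getD_append _ _ _ _ (by rw [hl']; omega)]
      rw [this]
      rfl
    · rw [if_neg hc]
      obtain ⟨j, rfl⟩ : ∃ j, i = (t.length + 2) * 56 + j := ⟨i - (t.length + 2) * 56, by omega⟩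
      have h7 := fn_append_right (l := T'.flatMap W5) (m := x.2.2.1) j
      rw [hlen] at h7
      rw [h7]
      congr 1
      omega
  have e : T'.flatMap W5 ++ x.2.2.1 = W5 (rep5 c0) ++ (W5 (rep5 c1) ++ (psi t ++ x.2.2.1)) := by
    rw [hT', List.flatMap_cons, List.flatMap_cons, ← psi_eq]
    simp
  rw [e] at h6
  exact h6.suffix_append.suffix_append

theorem tail_word {x : ℕ × List ℕ × List ℕ × List Bool} (hx : x ∈ tails) (t : List (Fin 9))
    (c0 c1 c2 : Fin 3) (ht : SquareFree (c0 :: c1 :: (t.map cl9 ++ [c2]))) :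
    ExactlyOne ((phi t ++ x.2.1).map retr) := by
  have hU : ∀ a ∈ phi t ++ x.2.1, a < 3 := by
    intro a ha
    rcases List.mem_append.mp ha with h | h
    · exact phi_lt t a h
    · exact tails_lt x hx a h
  have hsh := tails_shuf x hx
  have hS : Shuf (phi t ++ x.2.1) (phi t ++ x.2.1) (psi t ++ x.2.2.1) := by
    refine (phi_shuf t).append ?_
    rw [← hsh.1]
    exact Shuf.of_shuf _ _ _ hsh.2.1 hsh.2.2
  rw [exactlyOne_iff hU hS (forced x.2.1 x.2.2.1 ⟨_, tails_pre x hx⟩
    (stepEnd_forced (tails_end x hx)) t)]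
  rw [squareFree_retr (shuf_mem_lt hS hU)]
  exact tail_sf hx t c0 c1 c2 ht

theorem small_word {x : ℕ × List ℕ × List ℕ × List Bool} (hx : x ∈ smalls) :
    ExactlyOne (x.2.1.map retr) := by
  have hsh := smalls_shuf x hx
  have hS : Shuf x.2.1 x.2.1 x.2.2.1 := by
    rw [← hsh.1]
    exact Shuf.of_shuf _ _ _ hsh.2.1 hsh.2.2
  rw [exactlyOne_iff (smalls_lt x hx) hS (stepEnd_forced (smalls_end x hx))]
  rw [squareFree_retr (shuf_mem_lt hS (smalls_lt x hx))]
  exact squareFree_of_SF (sfBits_spec (smalls_sf x hx))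

/-- the block of class `c` and number `d` -/
def nine (c d : Fin 3) : Fin 9 := ⟨3 * c.val + d.val, by omega⟩

theorem cl9_nine : ∀ c d : Fin 3, cl9 (nine c d) = c := by decide

theorem nine_inj (c d e : Fin 3) (h : nine c d = nine c e) : d = e := by
  unfold nine at h
  rw [Fin.mk.injEq] at h
  apply Fin.ext
  omega

theorem NX9_length : ∀ a : Fin 9, (NX9 a).length = 28 := by decide +kernel

theorem NX9_inj : ∀ a b : Fin 9, NX9 a = NX9 b → a = b := by decide +kernel

theorem phi_inj : ∀ t t' : List (Fin 9), ∀ F : List ℕ, t.length = t'.length →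
    phi t ++ F = phi t' ++ F → t = t'
  | [], [], _, _, _ => rfl
  | [], _ :: _, _, h, _ => by simp at h
  | _ :: _, [], _, h, _ => by simp at h
  | a :: t, b :: t', F, h, h' => by
      have e1 : phi (a :: t) ++ F = NX9 a ++ (phi t ++ F) := by simp [phi, List.flatMap_cons]
      have e2 : phi (b :: t') ++ F = NX9 b ++ (phi t' ++ F) := by simp [phi, List.flatMap_cons]
      rw [e1, e2] at h'
      obtain ⟨h1, h2⟩ := List.append_inj h' (by rw [NX9_length, NX9_length])
      rw [NX9_inj a b h1, phi_inj t t' F (by simpa using h) h2]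

theorem phi_length (t : List (Fin 9)) : (phi t).length = t.length * 28 := by
  unfold phi
  exact flatMap_length NX9 28 NX9_length t

theorem retr_inj_on {l l' : List ℕ} (h : ∀ a ∈ l, a < 3) (h' : ∀ a ∈ l', a < 3)
    (he : l.map retr = l'.map retr) : l = l' := by
  rw [← retr_val h, ← retr_val h', he]

/-- many sequences over a given square-free word -/
theorem family (m : ℕ) : ∃ (c0 c1 c2 : Fin 3) (s : (Fin m → Fin 3) → List (Fin 9)),
    Function.Injective s ∧ (∀ g, (s g).length = m) ∧
      ∀ g, SquareFree (c0 :: c1 :: ((s g).map cl9 ++ [c2])) := by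
  obtain ⟨l, hl, hsf⟩ := exists_sf (m + 3)
  rcases l with _ | ⟨c0, _ | ⟨c1, l⟩⟩
  · simp at hl
  · simp at hl
  · simp only [List.length_cons] at hl
    have hl2 : l.length = m + 1 := by omega
    rcases List.eq_nil_or_concat l with rfl | ⟨l', c2, rfl⟩
    · simp at hl2
    · rw [List.length_concat] at hl2
      have hl' : l'.length = m := by omega
      refine ⟨c0, c1, c2, fun g => List.ofFn fun i : Fin m => nine (l'.getD i.val 0) (g i), ?_,
        ?_, ?_⟩
      · intro g g' hgg
        have h1 := List.ofFn_injective hgg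
        funext i
        exact nine_inj _ _ _ (congrFun h1 i)
      · intro g
        rw [List.length_ofFn]
      · intro g
        have h2 : (List.ofFn fun i : Fin m => nine (l'.getD i.val 0) (g i)).map cl9 = l' := by
          apply List.ext_getElem
          · rw [List.length_map, List.length_ofFn, hl']
          · intro i h1 h2
            rw [List.getElem_map, List.getElem_ofFn, cl9_nine, List.getD_eq_getElem _ _ h2]
        rw [h2]
        simpa using hsf

theorem ncard_ge {α ι : Type*} [Fintype ι] {S : Set α} (hS : S.Finite) (f : ι → α)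
    (hf : Function.Injective f) (hfS : ∀ i, f i ∈ S) : Fintype.card ι ≤ S.ncard := by
  have h1 : (Set.range f).ncard = Fintype.card ι := by
    rw [← Set.image_univ, Set.ncard_image_of_injective _ hf, Set.ncard_univ,
      Nat.card_eq_fintype_card]
  rw [← h1]
  refine Set.ncard_le_ncard ?_ hS
  rintro _ ⟨i, rfl⟩
  exact hfS i

theorem finite_words (n : ℕ) (p : List (Fin 3) → Prop) :
    {u : List (Fin 3) | u.length = n ∧ p u}.Finite :=
  (List.finite_length_eq (Fin 3) n).subset fun _ hu => hu.1

theorem count_large (m j : ℕ) (hj : j < 28) :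
    3 ^ m ≤ {u : List (Fin 3) | u.length = 28 * m + (19 + j) ∧ ExactlyOne u}.ncard := by
  obtain ⟨c0, c1, c2, s, hs, hlen, hsf⟩ := family m
  set x := tails.getD j (0, [], [], []) with hx
  have hx1 : x ∈ tails := by
    rw [hx, List.getD_eq_getElem _ _ (by rw [tails_length]; exact hj)]
    exact List.getElem_mem _
  have hx2 : x.2.1.length = 19 + j := tails_lens ⟨j, hj⟩
  have hU : ∀ t, ∀ a ∈ phi t ++ x.2.1, a < 3 := by
    intro t a ha
    rcases List.mem_append.mp ha with h | h
    · exact phi_lt t a h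
    · exact tails_lt x hx1 a h
  have h := ncard_ge (finite_words (28 * m + (19 + j)) ExactlyOne)
    (fun g : Fin m → Fin 3 => (phi (s g) ++ x.2.1).map retr) ?_ ?_
  · simpa using h
  · intro g g' hgg
    apply hs
    apply phi_inj (s g) (s g') x.2.1
    · rw [hlen, hlen]
    · exact retr_inj_on (hU _) (hU _) hgg
  · intro g
    refine ⟨?_, tail_word hx1 (s g) c0 c1 c2 (hsf g)⟩
    rw [List.length_map, List.length_append, phi_length, hlen, hx2]
    ring

theorem exists_small (n : ℕ) (h : n ∈ [3, 6, 7, 8, 9, 10, 11, 12, 13, 14, 15, 16, 17, 18]) :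
    ∃ u : List (Fin 3), u.length = n ∧ ExactlyOne u := by
  rw [← smalls_lens] at h
  obtain ⟨x, hx, rfl⟩ := List.mem_map.mp h
  exact ⟨x.2.1.map retr, by rw [List.length_map], small_word hx⟩

theorem exactlyOne_nil : ExactlyOne ([] : List (Fin 3)) := by
  refine ⟨[], ⟨⟨[], rfl, rfl, rfl⟩, ?_⟩, ?_⟩
  · rintro x hx hxx
    have h0 : x ++ x = [] := by simpa using hxx
    exact hx (List.append_eq_nil_iff.mp h0).1
  · rintro w ⟨hw, _⟩
    have := (mem_selfShuffles.mp hw).length
    simpa using this

theorem count_all (n : ℕ) (h1 : n ≠ 1) (h2 : n ≠ 2) (h4 : n ≠ 4) (h5 : n ≠ 5) :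
    3 ^ ((n - 19) / 28) ≤ {u : List (Fin 3) | u.length = n ∧ ExactlyOne u}.ncard := by
  by_cases hn : 19 ≤ n
  · have h := count_large ((n - 19) / 28) ((n - 19) % 28) (Nat.mod_lt _ (by norm_num))
    have e : 28 * ((n - 19) / 28) + (19 + (n - 19) % 28) = n := by omega
    rw [e] at h
    exact h
  · have e : (n - 19) / 28 = 0 := by omega
    rw [e, pow_zero]
    have hex : ∃ u : List (Fin 3), u.length = n ∧ ExactlyOne u := by
      by_cases h0 : n = 0
      · exact ⟨[], by simp [h0], exactlyOne_nil⟩
      · apply exists_small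
        simp only [List.mem_cons, List.not_mem_nil, or_false]
        omega
    obtain ⟨u, hu⟩ := hex
    rw [Nat.one_le_iff_ne_zero, ← Nat.pos_iff_ne_zero, Set.ncard_pos (finite_words n ExactlyOne)]
    exact ⟨u, hu⟩

end Pool.Agent.H53.SQ
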