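import Pool.Agent.H53.SQ.Check

/-! Nine blocks and their forced self-shuffles. -/

namespace Pool.Agent.H53.SQ

def NC : List ℕ := [0, 1, 0, 2, 2, 1, 1, 2, 0, 1, 0, 0, 2, 1]

def NX0 : List ℕ := [0, 1, 0, 2, 2, 1, 1, 2, 0, 1, 0, 0, 2, 1, 0, 2, 0, 1, 1, 2, 2, 0, 0, 1, 0, 2, 1, 2]
def NX1 : List ℕ := [0, 1, 0, 2, 2, 1, 1, 2, 0, 1, 0, 0, 2, 1, 0, 2, 0, 1, 1, 2, 2, 0, 2, 0, 1, 0, 1, 2]
def NX2 : List ℕ := [0, 1, 0, 2, 2, 1, 1, 2, 0, 1, 0, 0, 2, 1, 0, 2, 0, 1, 1, 2, 2, 1, 0, 2, 0, 0, 1, 2]
def NX3 : List ℕ := [0, 1, 0, 2, 2, 1, 1, 2, 0, 1, 0, 0, 2, 1, 0, 2, 1, 2, 1, 0, 2, 0, 0, 1, 0, 2, 1, 2]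
def NX4 : List ℕ := [0, 1, 0, 2, 2, 1, 1, 2, 0, 1, 0, 0, 2, 1, 0, 1, 2, 2, 0, 0, 1, 2, 1, 0, 0, 2, 1, 2]
def NX5 : List ℕ := [0, 1, 0, 2, 2, 1, 1, 2, 0, 1, 0, 0, 2, 1, 0, 1, 2, 2, 0, 0, 1, 2, 1, 0, 2, 0, 1, 2]
def NX6 : List ℕ := [0, 1, 0, 2, 2, 1, 1, 2, 0, 1, 0, 0, 2, 1, 0, 2, 0, 1, 1, 2, 0, 0, 1, 2, 0, 2, 1, 2]
def NX7 : List ℕ := [0, 1, 0, 2, 2, 1, 1, 2, 0, 1, 0, 0, 2, 1, 0, 2, 1, 0, 1, 0, 2, 1, 0, 2, 2, 0, 1, 2]
def NX8 : List ℕ := [0, 1, 0, 2, 2, 1, 1, 2, 0, 1, 0, 0, 2, 1, 0, 1, 2, 2, 0, 0, 1, 2, 0, 2, 1, 0, 1, 2]

def NW0 : List ℕ := [0, 1, 0, 2, 0, 1, 2, 1, 0, 2, 1, 2, 0, 1, 0, 2, 1, 0, 1, 2, 0, 1, 0, 2, 0, 1, 2, 1, 0, 2, 0, 1, 0, 2, 1, 2, 0, 1, 2, 1, 0, 2, 0, 1, 2, 0, 2, 1, 0, 2, 0, 1, 0, 2, 1, 2]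
def NW1 : List ℕ := [0, 1, 0, 2, 0, 1, 2, 1, 0, 2, 1, 2, 0, 1, 0, 2, 1, 0, 1, 2, 0, 1, 0, 2, 0, 1, 2, 1, 0, 2, 1, 2, 0, 2, 1, 0, 2, 0, 1, 0, 2, 1, 0, 1, 2, 0, 2, 1, 0, 2, 0, 1, 0, 2, 1, 2]
def NW2 : List ℕ := [0, 1, 0, 2, 0, 1, 2, 1, 0, 2, 1, 2, 0, 1, 0, 2, 1, 0, 1, 2, 0, 1, 0, 2, 0, 1, 2, 1, 0, 1, 2, 0, 2, 1, 0, 2, 0, 1, 2, 0, 2, 1, 0, 1, 2, 0, 1, 0, 2, 0, 1, 2, 0, 2, 1, 2]
def NW3 : List ℕ := [0, 1, 0, 2, 0, 1, 2, 1, 0, 2, 1, 2, 0, 1, 0, 2, 1, 0, 1, 2, 0, 1, 0, 2, 0, 1, 2, 1, 0, 2, 0, 1, 0, 2, 1, 0, 1, 2, 0, 1, 0, 2, 1, 2, 0, 2, 1, 0, 2, 0, 1, 2, 0, 2, 1, 2]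
def NW4 : List ℕ := [0, 1, 0, 2, 0, 1, 2, 1, 0, 2, 1, 2, 0, 1, 0, 2, 1, 0, 1, 2, 0, 1, 0, 2, 0, 1, 2, 1, 0, 1, 2, 0, 2, 1, 0, 2, 0, 1, 2, 0, 2, 1, 2, 0, 1, 0, 2, 0, 1, 2, 0, 2, 1, 0, 1, 2]

def NB0 : List Bool := [false, false, false, false, true, true, false, false, true, true, false, false, false, false, false, true, true, false, true, true, true, true, true, false, true, false, true, true, false, false, false, false, true, true, false, false, true, true, false, true, false, true, false, false, true, false, false, false, true, false, true, true, true, true, true, true]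
def NB1 : List Bool := [false, false, false, false, true, true, false, false, true, true, false, false, false, false, false, true, true, false, true, true, true, true, true, false, true, false, true, true, false, false, false, false, true, true, false, false, true, true, false, true, false, false, false, false, true, false, true, false, true, true, true, true, true, false, true, true]
def NB2 : List Bool := [false, false, false, false, true, true, false, false, true, true, false, false, false, false, false, true, true, false, true, true, true, true, true, false, true, false, true, true, false, false, false, false, true, true, false, false, true, true, false, false, false, false, false, true, true, false, true, true, true, true, true, false, true, false, true, true]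
def NB3 : List Bool := [false, false, false, false, true, true, false, false, true, true, false, false, false, false, false, true, true, false, true, true, true, true, true, false, true, false, true, true, false, false, false, false, true, true, false, false, false, false, true, false, true, false, false, true, false, true, true, false, true, false, true, true, true, true, true, true]
def NB4 : List Bool := [false, false, false, false, true, true, false, false, true, true, false, false, false, false, false, true, true, false, true, true, true, true, true, false, true, false, true, true, false, false, false, true, false, true, false, true, false, false, true, true, false, false, true, true, true, false, true, false, false, true, false, false, true, true, true, true]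
def NB5 : List Bool := [false, false, false, false, true, true, false, false, true, true, false, false, false, false, false, true, true, false, true, true, true, true, true, false, true, false, true, true, false, false, false, true, false, true, false, true, false, false, true, true, false, false, true, true, true, false, true, true, false, false, false, true, true, false, true, true]
def NB6 : List Bool := [false, false, false, false, true, true, false, false, true, true, false, false, false, false, false, true, true, false, true, true, true, true, true, false, true, false, true, true, false, false, false, false, true, true, false, true, true, false, false, true, false, true, false, false, false, false, false, true, false, true, true, true, true, true, true, true]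
def NB7 : List Bool := [false, false, false, false, true, true, false, false, true, true, false, false, false, false, false, true, true, false, true, true, true, true, true, false, true, false, true, true, false, false, true, false, false, true, false, false, true, false, true, false, false, false, true, false, true, true, true, true, true, false, false, true, true, false, true, true]
def NB8 : List Bool := [false, false, false, false, true, true, false, false, true, true, false, false, false, false, false, true, true, false, true, true, true, true, true, false, true, false, true, true, false, false, false, true, false, true, false, true, false, false, false, false, false, false, true, false, false, true, false, true, true, true, true, true, true, true, true, true]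

theorem st0 : step 4 NC 73 NW0 [] (NX0 ++ NC) (NX0 ++ NC) 0 = true := by
  decide +kernel

theorem en0 : stepEnd 4 57 NW0 [] NX0 NX0 0 = true := by
  decide +kernel

theorem be0 : shuf NB0 NX0 NX0 = NW0 ∧ NB0.count false = 28 ∧ NB0.count true = 28 := by
  decide +kernel

theorem st1 : step 6 NC 73 NW0 [] (NX1 ++ NC) (NX1 ++ NC) 0 = true := by
  decide +kernel

theorem en1 : stepEnd 6 57 NW0 [] NX1 NX1 0 = true := by
  decide +kernel

theorem be1 : shuf NB1 NX1 NX1 = NW0 ∧ NB1.count false = 28 ∧ NB1.count true = 28 := by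
  decide +kernel

theorem st2 : step 6 NC 73 NW0 [] (NX2 ++ NC) (NX2 ++ NC) 0 = true := by
  decide +kernel

theorem en2 : stepEnd 4 57 NW0 [] NX2 NX2 0 = true := by
  decide +kernel

theorem be2 : shuf NB2 NX2 NX2 = NW0 ∧ NB2.count false = 28 ∧ NB2.count true = 28 := by
  decide +kernel

theorem st3 : step 13 NC 73 NW1 [] (NX3 ++ NC) (NX3 ++ NC) 0 = true := by
  decide +kernel

theorem en3 : stepEnd 13 57 NW1 [] NX3 NX3 0 = true := by
  decide +kernel

theorem be3 : shuf NB3 NX3 NX3 = NW1 ∧ NB3.count false = 28 ∧ NB3.count true = 28 := by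
  decide +kernel

theorem st4 : step 8 NC 73 NW2 [] (NX4 ++ NC) (NX4 ++ NC) 0 = true := by
  decide +kernel

theorem en4 : stepEnd 8 57 NW2 [] NX4 NX4 0 = true := by
  decide +kernel

theorem be4 : shuf NB4 NX4 NX4 = NW2 ∧ NB4.count false = 28 ∧ NB4.count true = 28 := by
  decide +kernel

theorem st5 : step 8 NC 73 NW2 [] (NX5 ++ NC) (NX5 ++ NC) 0 = true := by
  decide +kernel

theorem en5 : stepEnd 8 57 NW2 [] NX5 NX5 0 = true := by
  decide +kernel

theorem be5 : shuf NB5 NX5 NX5 = NW2 ∧ NB5.count false = 28 ∧ NB5.count true = 28 := by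
  decide +kernel

theorem st6 : step 11 NC 73 NW3 [] (NX6 ++ NC) (NX6 ++ NC) 0 = true := by
  decide +kernel

theorem en6 : stepEnd 8 57 NW3 [] NX6 NX6 0 = true := by
  decide +kernel

theorem be6 : shuf NB6 NX6 NX6 = NW3 ∧ NB6.count false = 28 ∧ NB6.count true = 28 := by
  decide +kernel

theorem st7 : step 8 NC 73 NW3 [] (NX7 ++ NC) (NX7 ++ NC) 0 = true := by
  decide +kernel

theorem en7 : stepEnd 8 57 NW3 [] NX7 NX7 0 = true := by
  decide +kernel

theorem be7 : shuf NB7 NX7 NX7 = NW3 ∧ NB7.count false = 28 ∧ NB7.count true = 28 := by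
  decide +kernel

theorem st8 : step 8 NC 73 NW4 [] (NX8 ++ NC) (NX8 ++ NC) 0 = true := by
  decide +kernel

theorem en8 : stepEnd 8 57 NW4 [] NX8 NX8 0 = true := by
  decide +kernel

theorem be8 : shuf NB8 NX8 NX8 = NW4 ∧ NB8.count false = 28 ∧ NB8.count true = 28 := by
  decide +kernel

end Pool.Agent.H53.SQ
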