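import Pool.Agent.H53.SQ.Facts

/-! Square-freeness of images, with a final piece. -/

namespace Pool.Agent.H53.SQ

theorem fn_append_left {l m : List ℕ} {i : ℕ} (h : i < l.length) : fn (l ++ m) i = fn l i := by
  unfold fn
  exact List.getD_append _ _ _ _ h

theorem fn_append_right {l m : List ℕ} (i : ℕ) : fn (l ++ m) (l.length + i) = fn m i := by
  unfold fn
  rw [List.getD_append_right _ _ _ _ (by omega)]
  congr 1
  omega

theorem flatMap_length {A : Type*} (W : A → List ℕ) (N : ℕ) (hW : ∀ a, (W a).length = N) :
    ∀ t : List A, (t.flatMap W).length = t.length * N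
  | [] => by simp
  | a :: t => by
      rw [List.flatMap_cons, List.length_append, flatMap_length W N hW t, hW, List.length_cons]
      ring

theorem fn_flatMap {A : Type*} (W : A → List ℕ) (N : ℕ) (hN : 0 < N)
    (hW : ∀ a, (W a).length = N) (a0 : A) :
    ∀ (t : List A) (i : ℕ), i < t.length * N →
      fn (t.flatMap W) i = img N (fun a j => fn (W a) j) (fun j => t.getD j a0) i
  | [], i, hi => by simp at hi
  | a :: t, i, hi => by
      rw [List.flatMap_cons]
      by_cases h : i < N
      · rw [fn_append_left (by rw [hW]; exact h)]
        unfold img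
        rw [Nat.div_eq_of_lt h, Nat.mod_eq_of_lt h]
        simp
      · obtain ⟨j, rfl⟩ : ∃ j, i = N + j := ⟨i - N, by omega⟩
        have h1 : j < t.length * N := by
          rw [List.length_cons] at hi
          have : (t.length + 1) * N = t.length * N + N := by ring
          omega
        have h2 := fn_append_right (l := W a) (m := t.flatMap W) j
        rw [hW] at h2
        rw [h2, fn_flatMap W N hN hW a0 t j h1]
        unfold img
        have e1 : (N + j) / N = j / N + 1 := by
          rw [Nat.add_div_left _ hN]
        have e2 : (N + j) % N = j % N := Nat.add_mod_left N j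
        rw [e1, e2]
        simp

/-- letters of the images, in index form -/
def w5f (a : Fin 5) (i : ℕ) : ℕ := fn (W5 a) i

theorem SF_congr {β : Type*} {f g : ℕ → β} {m : ℕ} (h : ∀ i, i < m → f i = g i) (hf : SF f m) :
    SF g m := by
  intro s p hp hs
  obtain ⟨i, hi, hne⟩ := hf s p hp hs
  refine ⟨i, hi, ?_⟩
  rw [← h _ (by omega), ← h _ (by omega)]
  exact hne

theorem three_sf (a b c : Fin 5) (hab : c5 a ≠ c5 b) (hbc : c5 b ≠ c5 c) :
    SF (img 56 w5f (seq3 a b c)) (3 * 56) := by
  have h := sfBits_spec (trip a b c hab hbc)
  have hl : (W5 a ++ (W5 b ++ W5 c)).length = 3 * 56 := by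
    simp only [List.length_append, W5_length]
  rw [hl] at h
  refine SF_congr ?_ h
  intro i hi
  have h1 := fn_flatMap W5 56 (by norm_num) W5_length a [a, b, c] i (by simpa using hi)
  have h2 : [a, b, c].flatMap W5 = W5 a ++ (W5 b ++ W5 c) := by simp [List.flatMap_cons]
  rw [h2] at h1
  rw [h1]
  unfold img w5f
  have hlt : i / 56 < 3 := by omega
  have : ([a, b, c] : List (Fin 5)).getD (i / 56) a = seq3 a b c (i / 56) := by
    unfold seq3
    interval_cases (i / 56) <;> simp
  show fn (W5 (([a, b, c] : List (Fin 5)).getD (i / 56) a)) (i % 56) = _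
  rw [this]

theorem sync_f (a b c : Fin 5) (ρ : ℕ) (hbc : c5 b ≠ c5 c) (h0 : 0 < ρ) (hρ : ρ < 56) :
    ∃ i, i < 56 ∧ (if ρ + i < 56 then w5f b (ρ + i) else w5f c (ρ + i - 56)) ≠ w5f a i := by
  by_contra hcon
  push Not at hcon
  have h := sync5 a b c hbc ⟨ρ - 1, by omega⟩
  have e : ρ - 1 + 1 = ρ := by omega
  simp only [e] at h
  rw [eqPre_of] at h
  · exact Bool.noConfusion h
  · rw [List.length_drop, List.length_append, W5_length, W5_length]; omega
  · rw [W5_length]
  · apply List.ext_getElem
    · rw [List.length_take, List.length_take, List.length_drop, List.length_append, W5_length,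
        W5_length, W5_length]
      omega
    · intro i h1 h2
      rw [List.getElem_take, List.getElem_take, List.getElem_drop]
      rw [List.length_take, W5_length] at h2
      have hi : i < 56 := by omega
      have h3 := hcon i hi
      have h4 : w5f a i = (W5 a)[i]'(by rw [W5_length]; exact hi) := by
        unfold w5f fn
        exact List.getD_eq_getElem _ _ _
      rw [← h4, ← h3]
      by_cases hc : ρ + i < 56
      · rw [if_pos hc]
        unfold w5f fn
        rw [List.getElem_append_left (by rw [W5_length]; exact hc),
          List.getD_eq_getElem _ _ (by rw [W5_length]; exact hc)]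
      · rw [if_neg hc]
        unfold w5f fn
        rw [List.getElem_append_right (by rw [W5_length]; omega),
          List.getD_eq_getElem _ _ (by rw [W5_length]; omega)]
        simp only [W5_length]

theorem inj_f (a b : Fin 5) (h : ∀ i, i < 56 → w5f a i = w5f b i) : c5 a = c5 b := by
  by_contra hne
  apply inj5 a b hne
  apply List.ext_getElem
  · rw [W5_length, W5_length]
  · intro i h1 h2
    have := h i (by rw [W5_length] at h1; exact h1)
    unfold w5f fn at this
    rw [List.getD_eq_getElem _ _ h1, List.getD_eq_getElem _ _ h2] at this
    exact this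

/-- images of long sequences -/
theorem img_sf (t : ℕ → Fin 5) (m : ℕ) (hm : 3 ≤ m) (ht : SF (fun i => c5 (t i)) m) :
    SF (img 56 w5f t) (m * 56) :=
  subst_sf 56 (by norm_num) w5f c5 three_sf (fun a b c ρ h => sync_f a b c ρ h) inj_f t m hm ht

/-- images followed by a final piece -/
theorem glue_sf (t : ℕ → Fin 5) (m : ℕ) (hm : 2 ≤ m) (ht : SF (fun i => c5 (t i)) (m + 1))
    (G : List ℕ) (hG : G.length ≤ 112) (hG14 : ∀ c : Fin 5, ∀ i, i < 14 → fn G i = w5f c i)
    (hmk : ∀ i, i < 9 → fn G (6 + i) = fn MK i)
    (hwin : ∀ a b : Fin 5, c5 a ≠ c5 b → sfBits (W5 a ++ (W5 b ++ G)) = true) :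
    SF (fun i => if i < m * 56 then img 56 w5f t i else fn G (i - m * 56))
      (m * 56 + G.length) := by
  have hall := img_sf t (m + 1) (by omega) ht
  have hadj : ∀ b, b + 1 ≤ m → c5 (t b) ≠ c5 (t (b + 1)) := by
    intro b hb
    obtain ⟨i, hi, hne⟩ := ht b 1 le_rfl (by omega)
    have : i = 0 := by omega
    subst this
    exact hne
  intro s p hp hs
  by_contra hcon
  push Not at hcon
  by_cases hcase : s + 2 * p ≤ m * 56 + 14
  · obtain ⟨i, hi, hne⟩ := hall s p hp (by omega)
    apply hne
    have key : ∀ j, j < m * 56 + 14 →
        (if j < m * 56 then img 56 w5f t j else fn G (j - m * 56)) = img 56 w5f t j := by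
      intro j hj
      by_cases h : j < m * 56
      · rw [if_pos h]
      · rw [if_neg h]
        have e : j = m * 56 + (j - m * 56) := by omega
        conv_rhs => rw [e]
        rw [img_add 56 (by norm_num) w5f t m (j - m * 56) (by omega)]
        exact hG14 _ _ (by omega)
    have h := hcon i hi
    rw [key _ (by omega), key _ (by omega)] at h
    exact h
  · push Not at hcase
    by_cases hp2 : m * 56 + p < s + 2 * p
    · -- inside the last two blocks and the final piece
      have hs2 : (m - 2) * 56 ≤ s := by omega
      obtain ⟨m', rfl⟩ : ∃ m', m = m' + 2 := ⟨m - 2, by omega⟩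
      have hw := sfBits_spec (hwin (t m') (t (m' + 1)) (hadj m' (by omega)))
      have hl : (W5 (t m') ++ (W5 (t (m' + 1)) ++ G)).length = 112 + G.length := by
        simp only [List.length_append, W5_length]
        omega
      rw [hl] at hw
      obtain ⟨i, hi, hne⟩ := hw (s - m' * 56) p hp (by omega)
      apply hne
      have key : ∀ j, j < 112 + G.length → fn (W5 (t m') ++ (W5 (t (m' + 1)) ++ G)) j =
          (if m' * 56 + j < (m' + 2) * 56 then img 56 w5f t (m' * 56 + j)
            else fn G (m' * 56 + j - (m' + 2) * 56)) := by
        intro j hj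
        by_cases h1 : j < 56
        · rw [fn_append_left (by rw [W5_length]; exact h1), if_pos (by omega),
            img_add 56 (by norm_num) w5f t m' j h1]
          rfl
        · obtain ⟨j', rfl⟩ : ∃ j', j = 56 + j' := ⟨j - 56, by omega⟩
          have h2 := fn_append_right (l := W5 (t m')) (m := W5 (t (m' + 1)) ++ G) j'
          rw [W5_length] at h2
          rw [h2]
          by_cases h3 : j' < 56
          · rw [fn_append_left (by rw [W5_length]; exact h3), if_pos (by omega)]
            have e : m' * 56 + (56 + j') = (m' + 1) * 56 + j' := by ring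
            rw [e, img_add 56 (by norm_num) w5f t (m' + 1) j' h3]
            rfl
          · obtain ⟨j'', rfl⟩ : ∃ j'', j' = 56 + j'' := ⟨j' - 56, by omega⟩
            have h4 := fn_append_right (l := W5 (t (m' + 1))) (m := G) j''
            rw [W5_length] at h4
            rw [h4, if_neg (by omega)]
            congr 1
            omega
      rw [key _ (by omega), key _ (by omega)]
      have e1 : m' * 56 + (s - m' * 56 + i) = s + i := by omega
      have e2 : m' * 56 + (s - m' * 56 + p + i) = s + p + i := by omega
      rw [e1, e2]
      exact hcon i hi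
    · push Not at hp2
      -- the marker
      have hr : ∀ i, i < 9 → img 56 w5f t (m * 56 + 6 - p + i) = fn MK i := by
        intro i hi
        have h := hcon (m * 56 + 6 + i - p - s) (by omega)
        have e1 : s + (m * 56 + 6 + i - p - s) = m * 56 + 6 - p + i := by omega
        have e2 : s + p + (m * 56 + 6 + i - p - s) = m * 56 + (6 + i) := by omega
        rw [e1, e2, if_pos (by omega), if_neg (by omega)] at h
        rw [h, ← hmk i hi]
        congr 1
        omega
      obtain ⟨b, r, hr56, hbr⟩ : ∃ b r, r < 56 ∧ m * 56 + 6 - p = b * 56 + r :=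
        ⟨(m * 56 + 6 - p) / 56, (m * 56 + 6 - p) % 56, Nat.mod_lt _ (by norm_num), by omega⟩
      have hbm : b + 1 ≤ m := by omega
      have h := mark5 (t b) (t (b + 1)) (hadj b hbm) ⟨r, by omega⟩
      rw [eqPre_of] at h
      · exact Bool.noConfusion h
      · rw [List.length_drop, List.length_append, W5_length, W5_length]
        show 9 ≤ 56 + 56 - r
        omega
      · exact le_rfl
      · apply List.ext_getElem
        · rw [List.length_take, List.length_take, List.length_drop, List.length_append, W5_length,
            W5_length]
          show min 9 (56 + 56 - r) = min 9 9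
          omega
        · intro i h1 h2
          rw [List.getElem_take, List.getElem_take, List.getElem_drop]
          have hi : i < 9 := by
            rw [List.length_take] at h2
            have : MK.length = 9 := rfl
            omega
          have h3 := hr i hi
          have hMK : MK.length = 9 := rfl
          have h4 : fn MK i = MK[i]'(by rw [hMK]; exact hi) := by
            unfold fn
            exact List.getD_eq_getElem _ _ _
          rw [← h4, ← h3, hbr]
          show (W5 (t b) ++ W5 (t (b + 1)))[r + i]'_ = _
          by_cases hc : r + i < 56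
          · have e3 : b * 56 + r + i = b * 56 + (r + i) := by omega
            rw [e3, img_add 56 (by norm_num) w5f t b _ hc,
              List.getElem_append_left (by rw [W5_length]; exact hc)]
            unfold w5f fn
            rw [List.getD_eq_getElem _ _ (by rw [W5_length]; exact hc)]
          · have e3 : b * 56 + r + i = (b + 1) * 56 + (r + i - 56) := by omega
            rw [e3, img_add 56 (by norm_num) w5f t (b + 1) _ (by omega),
              List.getElem_append_right (by rw [W5_length]; omega)]
            unfold w5f fn
            rw [List.getD_eq_getElem _ _ (by rw [W5_length]; omega)]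
            simp only [W5_length]

end Pool.Agent.H53.SQ
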