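import Pool.Agent.H53.SQ.Glue

/-! The words built from the nine blocks. -/

namespace Pool.Agent.H53.SQ

/-- the nine blocks -/
def NX9 : Fin 9 → List ℕ := ![NX0, NX1, NX2, NX3, NX4, NX5, NX6, NX7, NX8]

/-- the image of a block -/
def w9 : Fin 9 → Fin 5 := ![0, 0, 0, 1, 2, 2, 3, 3, 4]

/-- the class of a block -/
def cl9 : Fin 9 → Fin 3 := ![0, 0, 0, 1, 1, 1, 2, 2, 2]

theorem c5_w9 : ∀ a : Fin 9, c5 (w9 a) = (cl9 a).val := by decide

theorem step9 (a : Fin 9) :
    ∃ P, step P NC 73 (W5 (w9 a)) [] (NX9 a ++ NC) (NX9 a ++ NC) 0 = true := by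
  fin_cases a
  · exact ⟨_, st0⟩
  · exact ⟨_, st1⟩
  · exact ⟨_, st2⟩
  · exact ⟨_, st3⟩
  · exact ⟨_, st4⟩
  · exact ⟨_, st5⟩
  · exact ⟨_, st6⟩
  · exact ⟨_, st7⟩
  · exact ⟨_, st8⟩

theorem end9 (a : Fin 9) : ∃ P, stepEnd P 57 (W5 (w9 a)) [] (NX9 a) (NX9 a) 0 = true := by
  fin_cases a
  · exact ⟨_, en0⟩
  · exact ⟨_, en1⟩
  · exact ⟨_, en2⟩
  · exact ⟨_, en3⟩
  · exact ⟨_, en4⟩
  · exact ⟨_, en5⟩
  · exact ⟨_, en6⟩
  · exact ⟨_, en7⟩
  · exact ⟨_, en8⟩

theorem shuf_of_eq {β : List Bool} {X W : List ℕ}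
    (h : shuf β X X = W ∧ β.count false = 28 ∧ β.count true = 28) (hX : X.length = 28) :
    Shuf X X W := by
  rw [← h.1]
  exact Shuf.of_shuf β X X (by rw [h.2.1, hX]) (by rw [h.2.2, hX])

theorem shuf9 (a : Fin 9) : Shuf (NX9 a) (NX9 a) (W5 (w9 a)) := by
  fin_cases a
  · exact shuf_of_eq be0 rfl
  · exact shuf_of_eq be1 rfl
  · exact shuf_of_eq be2 rfl
  · exact shuf_of_eq be3 rfl
  · exact shuf_of_eq be4 rfl
  · exact shuf_of_eq be5 rfl
  · exact shuf_of_eq be6 rfl
  · exact shuf_of_eq be7 rfl
  · exact shuf_of_eq be8 rfl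

/-- the word made of blocks -/
def phi (t : List (Fin 9)) : List ℕ := t.flatMap NX9

/-- its image -/
def psi (t : List (Fin 9)) : List ℕ := t.flatMap fun a => W5 (w9 a)

theorem nc_prefix (a : Fin 9) : ∃ e, NX9 a = NC ++ e :=
  ⟨(NX9 a).drop 14, by revert a; decide +kernel⟩

theorem forced (F G : List ℕ) (hF : ∃ e, F = NC ++ e)
    (hG : ∀ v, Shuf F F v → SquareFree v → v = G) :
    ∀ (t : List (Fin 9)) (v : List ℕ), Shuf (phi t ++ F) (phi t ++ F) v → SquareFree v →
      v = psi t ++ G
  | [], v, h, hsf => by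
      have := hG v (by simpa [phi] using h) hsf
      simpa [psi] using this
  | a :: t, v, h, hsf => by
      have e1 : phi (a :: t) ++ F = NX9 a ++ (phi t ++ F) := by
        simp [phi, List.flatMap_cons]
      obtain ⟨e, he⟩ : ∃ e, phi t ++ F = NC ++ e := by
        cases t with
        | nil =>
            obtain ⟨e, he⟩ := hF
            exact ⟨e, by simpa [phi] using he⟩
        | cons b t =>
            obtain ⟨e, he⟩ := nc_prefix b
            refine ⟨e ++ (phi t ++ F), ?_⟩
            have : phi (b :: t) = NX9 b ++ phi t := by simp [phi, List.flatMap_cons]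
            rw [this, he]
            simp
      obtain ⟨P, hP⟩ := step9 a
      rw [e1, he, ← List.append_assoc] at h
      obtain ⟨v', hv, hs⟩ := step_sound P NC 73 (W5 (w9 a)) [] (NX9 a ++ NC) (NX9 a ++ NC) 0 e v hP
        (by simp) h (by simpa using hsf)
      rw [← he] at hs
      have hsf' : SquareFree v' := by
        rw [hv] at hsf
        exact hsf.suffix_append
      have := forced F G hF hG t v' hs hsf'
      rw [hv, this]
      simp [psi, List.flatMap_cons]

theorem end_forced (a : Fin 9) (v : List ℕ) (h : Shuf (NX9 a) (NX9 a) v) (hsf : SquareFree v) :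
    v = W5 (w9 a) := by
  obtain ⟨P, hP⟩ := end9 a
  exact stepEnd_sound P 57 (W5 (w9 a)) [] (NX9 a) (NX9 a) 0 v hP (by simp) h (by simpa using hsf)

theorem phi_forced (t : List (Fin 9)) (v : List ℕ) (h : Shuf (phi t) (phi t) v)
    (hsf : SquareFree v) : v = psi t := by
  rcases List.eq_nil_or_concat t with rfl | ⟨s, a, rfl⟩
  · cases h
    rfl
  · have e1 : phi (s.concat a) = phi s ++ NX9 a := by
      simp [phi, List.flatMap_append, List.flatMap_cons]
    have e2 : psi (s.concat a) = psi s ++ W5 (w9 a) := by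
      simp [psi, List.flatMap_append, List.flatMap_cons]
    rw [e1] at h
    rw [e2]
    exact forced (NX9 a) (W5 (w9 a)) (nc_prefix a) (end_forced a) s v h hsf

theorem phi_shuf : ∀ t : List (Fin 9), Shuf (phi t) (phi t) (psi t)
  | [] => Shuf.nil
  | a :: t => by
      have e1 : phi (a :: t) = NX9 a ++ phi t := by simp [phi, List.flatMap_cons]
      have e2 : psi (a :: t) = W5 (w9 a) ++ psi t := by simp [psi, List.flatMap_cons]
      rw [e1, e2]
      exact (shuf9 a).append (phi_shuf t)

/-! ### letters below three -/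

theorem Shuf.mem {α : Type*} {u v w : List α} (h : Shuf u v w) : ∀ a ∈ w, a ∈ u ∨ a ∈ v := by
  induction h with
  | nil => simp
  | left _ ih =>
      intro a ha
      rcases List.mem_cons.mp ha with h | h
      · left; rw [h]; exact List.mem_cons_self
      · rcases ih a h with h | h
        · left; exact List.mem_cons_of_mem _ h
        · right; exact h
  | right _ ih =>
      intro a ha
      rcases List.mem_cons.mp ha with h | h
      · right; rw [h]; exact List.mem_cons_self
      · rcases ih a h with h | h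
        · left; exact h
        · right; exact List.mem_cons_of_mem _ h

/-- back to three letters -/
def retr (n : ℕ) : Fin 3 := ⟨n % 3, Nat.mod_lt _ (by norm_num)⟩

theorem retr_val {l : List ℕ} (h : ∀ a ∈ l, a < 3) : (l.map retr).map Fin.val = l := by
  rw [List.map_map]
  conv_rhs => rw [← List.map_id l]
  apply List.map_congr_left
  intro a ha
  simp [retr, Nat.mod_eq_of_lt (h a ha)]

theorem val_retr (l : List (Fin 3)) : (l.map Fin.val).map retr = l := by
  rw [List.map_map]
  conv_rhs => rw [← List.map_id l]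
  apply List.map_congr_left
  intro a _
  apply Fin.ext
  simp [retr, Nat.mod_eq_of_lt a.isLt]

theorem forced_fin {U W : List ℕ} (hU : ∀ a ∈ U, a < 3)
    (hf : ∀ v, Shuf U U v → SquareFree v → v = W) (w : List (Fin 3))
    (hw : w ∈ selfShuffles (U.map retr)) (hsf : SquareFree w) : w = W.map retr := by
  have h1 := (mem_selfShuffles.mp hw).map Fin.val
  rw [retr_val hU] at h1
  have h2 := hf _ h1 (hsf.map Fin.val_injective)
  rw [← h2, val_retr]

theorem exactlyOne_iff {U W : List ℕ} (hU : ∀ a ∈ U, a < 3) (hUW : Shuf U U W)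
    (hf : ∀ v, Shuf U U v → SquareFree v → v = W) :
    ExactlyOne (U.map retr) ↔ SquareFree (W.map retr) := by
  constructor
  · rintro ⟨w, ⟨hw, hsf⟩, _⟩
    rw [← forced_fin hU hf w hw hsf]
    exact hsf
  · intro h
    refine ⟨W.map retr, ⟨mem_selfShuffles.mpr (hUW.map retr), h⟩, ?_⟩
    rintro w ⟨hw, hsf⟩
    exact forced_fin hU hf w hw hsf

theorem squareFree_retr {W : List ℕ} (hW : ∀ a ∈ W, a < 3) :
    SquareFree (W.map retr) ↔ SquareFree W := by
  constructor
  · intro h
    have := h.map Fin.val_injective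
    rwa [retr_val hW] at this
  · intro h
    apply SquareFree.of_map (f := Fin.val)
    rw [retr_val hW]
    exact h

theorem NX9_lt : ∀ a : Fin 9, ∀ x ∈ NX9 a, x < 3 := by decide +kernel

theorem W5_lt : ∀ a : Fin 5, ∀ x ∈ W5 a, x < 3 := by decide +kernel

theorem phi_lt (t : List (Fin 9)) : ∀ x ∈ phi t, x < 3 := by
  intro x hx
  obtain ⟨a, _, ha⟩ := List.mem_flatMap.mp hx
  exact NX9_lt a x ha

theorem psi_lt (t : List (Fin 9)) : ∀ x ∈ psi t, x < 3 := by
  intro x hx
  obtain ⟨a, _, ha⟩ := List.mem_flatMap.mp hx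
  exact W5_lt _ x ha

/-! ### square-free images -/

theorem psi5_sf (t : List (Fin 5)) (hm : 3 ≤ t.length) (ht : SquareFree (t.map c5)) :
    SquareFree (t.flatMap W5) := by
  apply squareFree_of_SF
  rw [flatMap_length W5 56 W5_length]
  have h1 := SF_of_squareFree (d := c5 0) ht
  rw [List.length_map] at h1
  have h2 : SF (fun i => c5 (t.getD i 0)) t.length := by
    refine SF_congr ?_ h1
    intro i hi
    show (t.map c5).getD i (c5 0) = _
    rw [List.getD_map]
  have h3 := img_sf (fun i => t.getD i 0) t.length hm h2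
  exact SF_congr (fun i hi => (fn_flatMap W5 56 (by norm_num) W5_length 0 t i hi).symm) h3

theorem psi5_sf' (t : List (Fin 5)) (ht : SquareFree (t.map c5)) : SquareFree (t.flatMap W5) := by
  rcases t with _ | ⟨a, _ | ⟨b, _ | ⟨c, t⟩⟩⟩
  · rintro x hx hxx
    have h0 : x ++ x = [] := by simpa using hxx
    exact hx (List.append_eq_nil_iff.mp h0).1
  · obtain ⟨b, hb⟩ := (by decide : ∀ a : Fin 5, ∃ b : Fin 5, c5 a ≠ c5 b) a
    have h := squareFree_of_SF (sfBits_spec (trip a b a hb (Ne.symm hb)))
    have := h.prefix_append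
    simpa [List.flatMap_cons] using this
  · have hb : c5 a ≠ c5 b := by
      intro hab
      refine ht [c5 a] (by simp) ⟨[], [], ?_⟩
      simp [hab]
    have h := squareFree_of_SF (sfBits_spec (trip a b a hb (Ne.symm hb)))
    rw [← List.append_assoc] at h
    have := h.prefix_append
    simpa [List.flatMap_cons] using this
  · exact psi5_sf _ (by simp) ht

theorem psi_eq (t : List (Fin 9)) : psi t = (t.map w9).flatMap W5 := by
  unfold psi
  rw [List.flatMap_map]

theorem psi_sf (t : List (Fin 9)) (ht : SquareFree (t.map cl9)) : SquareFree (psi t) := by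
  rw [psi_eq]
  apply psi5_sf'
  have h1 : (t.map w9).map c5 = (t.map cl9).map Fin.val := by
    rw [List.map_map, List.map_map]
    apply List.map_congr_left
    intro a _
    exact c5_w9 a
  rw [h1]
  exact ht.map Fin.val_injective

/-- representatives of the classes -/
def rep5 : Fin 3 → Fin 5 := ![0, 1, 3]

theorem c5_rep5 : ∀ a : Fin 3, c5 (rep5 a) = a.val := by decide

theorem long_sf : ∀ k : ℕ, ∃ l : List (Fin 3), 3 + k ≤ l.length ∧ SquareFree l
  | 0 => by
      refine ⟨[0, 1, 2], by simp, ?_⟩
      have h : sfBits [0, 1, 2] = true := by decide +kernel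
      have h1 := squareFree_of_SF (sfBits_spec h)
      exact SquareFree.of_map (f := Fin.val) (by simpa using h1)
  | k + 1 => by
      obtain ⟨l, hl, hsf⟩ := long_sf k
      have h1 : SquareFree ((l.map rep5).map c5) := by
        have : (l.map rep5).map c5 = l.map Fin.val := by
          rw [List.map_map]
          apply List.map_congr_left
          intro a _
          exact c5_rep5 a
        rw [this]
        exact hsf.map Fin.val_injective
      have h2 := psi5_sf' _ h1
      refine ⟨((l.map rep5).flatMap W5).map retr, ?_, ?_⟩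
      · rw [List.length_map, flatMap_length W5 56 W5_length, List.length_map]
        omega
      · rw [squareFree_retr]
        · exact h2
        · intro x hx
          obtain ⟨a, _, ha⟩ := List.mem_flatMap.mp hx
          exact W5_lt _ x ha

theorem exists_sf (m : ℕ) : ∃ l : List (Fin 3), l.length = m ∧ SquareFree l := by
  obtain ⟨l, hl, hsf⟩ := long_sf m
  refine ⟨l.take m, by rw [List.length_take]; omega, ?_⟩
  exact hsf.factor (List.take_prefix m l).isInfix

end Pool.Agent.H53.SQ
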