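import Pool.Agent.H53.SQ.Check
import Pool.Agent.H53.SQ.Bits

/-! No word of length 1, 2, 4 or 5 has exactly one square-free self-shuffle. -/

namespace Pool.Agent.H53.SQ

variable {α : Type*}

theorem SquareFree.map_inv {f : α → ℕ} {g : ℕ → α} {w : List α}
    (hg : ∀ a ∈ w, g (f a) = a) (h : SquareFree w) : SquareFree (w.map f) := by
  have h1 : (w.map f).map g = w := by
    rw [List.map_map]
    conv_rhs => rw [← List.map_id w]
    apply List.map_congr_left
    intro a ha
    exact hg a ha
  apply SquareFree.of_map (f := g)
  rw [h1]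
  exact h

theorem Shuf.mem' {u v w : List α} (h : Shuf u v w) : ∀ a ∈ w, a ∈ u ∨ a ∈ v := by
  induction h with
  | nil => simp
  | left _ ih =>
      intro a ha
      rcases List.mem_cons.mp ha with h | h
      · left; rw [h]; exact List.mem_cons_self
      · rcases ih a h with h | h
        · left; exact List.mem_cons_of_mem _ h
        · right; exact h
  | right _ ih =>
      intro a ha
      rcases List.mem_cons.mp ha with h | h
      · right; rw [h]; exact List.mem_cons_self
      · rcases ih a h with h | h
        · left; exact h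
        · right; exact List.mem_cons_of_mem _ h

/-- relabelling the letters -/
theorem exactlyOne_map {u : List α} {f : α → ℕ} {g : ℕ → α} (hg : ∀ a ∈ u, g (f a) = a)
    (h : ExactlyOne u) : ExactlyOne (u.map f) := by
  obtain ⟨w, ⟨hw, hsf⟩, huniq⟩ := h
  have hw' := mem_selfShuffles.mp hw
  have hmem : ∀ w', Shuf u u w' → ∀ a ∈ w', g (f a) = a := by
    intro w' h' a ha
    rcases h'.mem' a ha with h | h <;> exact hg a h
  refine ⟨w.map f, ⟨mem_selfShuffles.mpr (hw'.map f), hsf.map_inv (hmem w hw')⟩, ?_⟩
  rintro v ⟨hv, hvsf⟩
  have hv' := mem_selfShuffles.mp hv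
  have h1 : (u.map f).map g = u := by
    rw [List.map_map]
    conv_rhs => rw [← List.map_id u]
    apply List.map_congr_left
    intro a ha
    exact hg a ha
  have h2 := hv'.map g
  rw [h1] at h2
  -- v = (v.map g).map f
  have h3 : (v.map g).map f = v := by
    rw [List.map_map]
    conv_rhs => rw [← List.map_id v]
    apply List.map_congr_left
    intro b hb
    have hb' : b ∈ u.map f := by
      rcases hv'.mem' b hb with h | h <;> exact h
    obtain ⟨a, ha, rfl⟩ := List.mem_map.mp hb'
    show f (g (f a)) = f a
    rw [hg a ha]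
  have h4 : SquareFree (v.map g) := by
    apply SquareFree.of_map (f := f)
    rw [h3]
    exact hvsf
  have h5 := huniq (v.map g) ⟨mem_selfShuffles.mpr h2, h4⟩
  rw [← h5, h3]

/-- no square of a period at most `P` -/
def noSq (P : ℕ) : List ℕ → Bool
  | [] => true
  | a :: l => !hasSq P (a :: l) && noSq P l

theorem noSq_suffix (P : ℕ) : ∀ (s l : List ℕ), noSq P (s ++ l) = true → noSq P l = true
  | [], l, h => h
  | a :: s, l, h => by
      simp only [List.cons_append, noSq, Bool.and_eq_true] at h
      exact noSq_suffix P s l h.2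

theorem noSq_spec {P : ℕ} {l : List ℕ} (h : noSq P l = true) (hP : l.length ≤ P) :
    SquareFree l := by
  rintro x hx ⟨s, t, hst⟩
  have hxl : 1 ≤ x.length := by
    rcases x with _ | ⟨a, x⟩
    · exact absurd rfl hx
    · simp
  have e : l = s ++ (x ++ (x ++ t)) := by rw [← hst]; simp
  rw [e] at h
  have h1 := noSq_suffix P s _ h
  rcases hy : x ++ (x ++ t) with _ | ⟨b, y⟩
  · rw [List.append_eq_nil_iff] at hy
    exact hx hy.1
  · rw [hy] at h1
    simp only [noSq, Bool.and_eq_true, Bool.not_eq_true'] at h1
    have h2 : hasSq P (b :: y) = true := by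
      unfold hasSq
      refine hasSqFrom_of (b :: y) P _ 1 x.length (by rw [List.drop_one]) le_rfl hxl ?_ ?_
      · have : l.length = s.length + (x.length + (x.length + t.length)) := by
          rw [e]; simp
        omega
      · rw [← hy]
        have e2 : (x ++ (x ++ t)).drop x.length = x ++ t := by simp
        rw [e2]
        refine eqPre_of _ _ _ (by simp) (by simp) ?_
        simp
    rw [h2] at h1
    exact Bool.noConfusion h1.1

theorem idxOf_le [DecidableEq α] : ∀ (u : List α) (i : ℕ) (hi : i < u.length), u.idxOf u[i] ≤ i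
  | [], i, hi => by simp at hi
  | a :: u, 0, hi => by simp
  | a :: u, i + 1, hi => by
      have h1 := idxOf_le u i (by simpa using hi)
      rw [List.getElem_cons_succ, List.idxOf_cons]
      generalize (a == u[i]'(by simpa using hi)) = b
      cases b
      · simpa using h1
      · simp

/-- conduction sequences that suffice -/
def cand : List (List Bool) := [
  [false, false, false, true, true, false, true, true],
  [false, false, true, false, false, true, true, true],
  [false, false, false, false, true, true, true, false, true, true],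
  [false, false, false, false, true, false, true, true, true, true],
  [false, false, false, true, true, false, true, false, true, true],
  [false, false, true, false, false, false, true, true, true, true],
  [false, false, true, false, false, true, true, false, true, true]]

/-- the conduction gives a square-free word -/
def good (u : List ℕ) (β : List Bool) : Bool :=
  decide (β.count false = u.length) && (decide (β.count true = u.length) &&
    noSq 10 (shuf β u u))

/-- no square-free self-shuffle, or two -/
def bad (u : List ℕ) : Bool :=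
  deadEnd 5 11 [] u u 0 || cand.any fun β => cand.any fun γ =>
    good u β && (good u γ && decide (shuf β u u ≠ shuf γ u u))

theorem good_spec {u : List ℕ} {β : List Bool} (hu : u.length ≤ 5) (h : good u β = true) :
    shuf β u u ∈ selfShuffles u ∧ SquareFree (shuf β u u) := by
  simp only [good, Bool.and_eq_true, decide_eq_true_eq] at h
  refine ⟨⟨β, h.1, h.2.1, rfl⟩, noSq_spec h.2.2 ?_⟩
  rw [(Shuf.of_shuf β u u h.1 h.2.1).length]
  omega

theorem bad_spec {u : List ℕ} (hu : u.length ≤ 5) (h : bad u = true) : ¬ ExactlyOne u := by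
  rintro ⟨w, ⟨hw, hsf⟩, huniq⟩
  simp only [bad, Bool.or_eq_true, List.any_eq_true, Bool.and_eq_true, decide_eq_true_eq] at h
  rcases h with h | ⟨β, _, γ, _, h1, h2, h3⟩
  · exact deadEnd_sound 5 11 [] u u 0 w h (by simp) (mem_selfShuffles.mp hw) (by simpa using hsf)
  · exact h3 ((huniq _ (good_spec hu h1)).trans (huniq _ (good_spec hu h2)).symm)

theorem bad1 : ∀ a : Fin 1, bad [a.val] = true := by decide +kernel

theorem bad2 : ∀ (a : Fin 1) (b : Fin 2), bad [a.val, b.val] = true := by decide +kernel

theorem bad4 : ∀ (a : Fin 1) (b : Fin 2) (c : Fin 3) (d : Fin 4),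
    bad [a.val, b.val, c.val, d.val] = true := by decide +kernel

theorem bad5 : ∀ (a : Fin 1) (b : Fin 2) (c : Fin 3) (d : Fin 4) (e : Fin 5),
    bad [a.val, b.val, c.val, d.val, e.val] = true := by decide +kernel

theorem relabel (u : List α) (hu : u ≠ []) : ∃ (f : α → ℕ) (g : ℕ → α),
    (∀ a ∈ u, g (f a) = a) ∧ ∀ i (hi : i < u.length), f u[i] ≤ i := by
  classical
  refine ⟨fun a => u.idxOf a, fun n => u.getD n (u.head hu), ?_, ?_⟩
  · intro a ha
    have h1 : u.idxOf a < u.length := List.idxOf_lt_length_iff.mpr ha
    show u.getD (u.idxOf a) _ = a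
    rw [List.getD_eq_getElem _ _ h1]
    exact List.getElem_idxOf h1
  · intro i hi
    exact idxOf_le u i hi

theorem no_short (u : List α) (h : u.length = 1 ∨ u.length = 2 ∨ u.length = 4 ∨ u.length = 5) :
    ¬ ExactlyOne u := by
  intro hu
  have hne : u ≠ [] := by
    rintro rfl
    simp at h
  obtain ⟨f, g, hg, hf⟩ := relabel u hne
  have h1 := exactlyOne_map hg hu
  rcases h with h | h | h | h
  · obtain ⟨a, rfl⟩ := List.length_eq_one_iff.mp h
    have ha := hf 0 (by simp)
    simp only [List.getElem_cons_zero] at ha
    exact bad_spec (by simp) (bad1 ⟨f a, by omega⟩) (by simpa using h1)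
  · obtain ⟨a, b, rfl⟩ := List.length_eq_two.mp h
    have ha := hf 0 (by simp)
    have hb := hf 1 (by simp)
    simp only [List.getElem_cons_zero, List.getElem_cons_succ] at ha hb
    exact bad_spec (by simp) (bad2 ⟨f a, by omega⟩ ⟨f b, by omega⟩) (by simpa using h1)
  · rcases u with _ | ⟨a, _ | ⟨b, _ | ⟨c, _ | ⟨d, _ | ⟨e, u⟩⟩⟩⟩⟩
    · simp at h
    · simp at h
    · simp at h
    · simp at h
    · have ha := hf 0 (by simp)
      have hb := hf 1 (by simp)
      have hc := hf 2 (by simp)
      have hd := hf 3 (by simp)
      simp only [List.getElem_cons_zero, List.getElem_cons_succ] at ha hb hc hd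
      exact bad_spec (by simp) (bad4 ⟨f a, by omega⟩ ⟨f b, by omega⟩ ⟨f c, by omega⟩ ⟨f d, by omega⟩)
        (by simpa using h1)
    · simp at h
  · rcases u with _ | ⟨a, _ | ⟨b, _ | ⟨c, _ | ⟨d, _ | ⟨e, _ | ⟨e', u⟩⟩⟩⟩⟩⟩
    · simp at h
    · simp at h
    · simp at h
    · simp at h
    · simp at h
    · have ha := hf 0 (by simp)
      have hb := hf 1 (by simp)
      have hc := hf 2 (by simp)
      have hd := hf 3 (by simp)
      have he := hf 4 (by simp)
      simp only [List.getElem_cons_zero, List.getElem_cons_succ] at ha hb hc hd he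
      exact bad_spec (by simp) (bad5 ⟨f a, by omega⟩ ⟨f b, by omega⟩ ⟨f c, by omega⟩ ⟨f d, by omega⟩
        ⟨f e, by omega⟩) (by simpa using h1)
    · simp at h

end Pool.Agent.H53.SQ
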