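import Mathlib

/-! Uniform substitutions and square-free words (index form). -/

namespace Pool.Agent.H53.SQ

/-- index form of square-freeness of the first `m` values of `f` -/
def SF {β : Type*} (f : ℕ → β) (m : ℕ) : Prop :=
  ∀ s p, 1 ≤ p → s + 2 * p ≤ m → ∃ i, i < p ∧ f (s + i) ≠ f (s + p + i)

/-- the image of the sequence `t` under the `N`-uniform substitution `W` -/
def img {A : Type*} {β : Type*} (N : ℕ) (W : A → ℕ → β) (t : ℕ → A) (i : ℕ) : β :=
  W (t (i / N)) (i % N)

/-- a sequence beginning with three letters -/
def seq3 {A : Type*} (a b c : A) (i : ℕ) : A := if i = 0 then a else if i = 1 then b else c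

theorem sf_mono {β : Type*} {f : ℕ → β} {m m' : ℕ} (h : SF f m) (hm : m' ≤ m) : SF f m' :=
  fun s p hp hs => h s p hp (le_trans hs hm)

theorem sf_shift {β : Type*} {f : ℕ → β} {m k : ℕ} (h : SF f (m + k)) :
    SF (fun i => f (k + i)) m := by
  intro s p hp hs
  obtain ⟨i, hi, hne⟩ := h (k + s) p hp (by omega)
  refine ⟨i, hi, ?_⟩
  have e1 : k + s + i = k + (s + i) := by omega
  have e2 : k + s + p + i = k + (s + p + i) := by omega
  rw [e1, e2] at hne
  exact hne

theorem img_add {A : Type*} {β : Type*} (N : ℕ) (hN : 0 < N) (W : A → ℕ → β) (t : ℕ → A) (b c : ℕ)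
    (hc : c < N) : img N W t (b * N + c) = W (t b) c := by
  unfold img
  have h1 : (b * N + c) / N = b := by
    rw [Nat.mul_comm, Nat.mul_add_div hN, Nat.div_eq_of_lt hc, Nat.add_zero]
  have h2 : (b * N + c) % N = c := by
    rw [Nat.mul_comm, Nat.mul_add_mod]
    exact Nat.mod_eq_of_lt hc
  rw [h1, h2]

variable {A C β : Type*}

/-- The substitution lemma. -/
theorem subst_sf (N : ℕ) (hN : 0 < N) (W : A → ℕ → β) (cl : A → C)
    (h3 : ∀ a b c, cl a ≠ cl b → cl b ≠ cl c → SF (img N W (seq3 a b c)) (3 * N))
    (hsync : ∀ a b c ρ, cl b ≠ cl c → 0 < ρ → ρ < N →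
      ∃ i, i < N ∧ (if ρ + i < N then W b (ρ + i) else W c (ρ + i - N)) ≠ W a i)
    (hinj : ∀ a b, (∀ i, i < N → W a i = W b i) → cl a = cl b)
    (t : ℕ → A) (m : ℕ) (hm : 3 ≤ m) (ht : SF (fun i => cl (t i)) m) :
    SF (img N W t) (m * N) := by
  have hadj : ∀ b, b + 2 ≤ m → cl (t b) ≠ cl (t (b + 1)) := by
    intro b hb
    obtain ⟨i, hi, hne⟩ := ht b 1 le_rfl (by omega)
    have : i = 0 := by omega
    subst this
    exact hne
  intro s p hp hs
  by_contra hcon
  push Not at hcon
  -- hcon : ∀ i < p, img (s+i) = img (s+p+i)
  obtain ⟨b0, σ, hσ, hs0⟩ : ∃ b0 σ, σ < N ∧ s = b0 * N + σ :=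
    ⟨s / N, s % N, Nat.mod_lt _ hN, by rw [Nat.mul_comm]; exact (Nat.div_add_mod s N).symm⟩
  by_cases hshort : s + 2 * p ≤ (b0 + 3) * N
  · -- inside three blocks
    set b1 := min b0 (m - 3) with hb1
    have hb1m : b1 + 3 ≤ m := by omega
    have hb1le : b1 ≤ b0 := by omega
    have hend : s + 2 * p ≤ (b1 + 3) * N := by
      rcases le_total b0 (m - 3) with h | h
      · have : b1 = b0 := by omega
        rw [this]; exact hshort
      · have : b1 + 3 = m := by omega
        rw [this]; exact hs
    have hstart : b1 * N ≤ s := by
      rw [hs0]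
      have := Nat.mul_le_mul_right N hb1le
      omega
    obtain ⟨i, hi, hne⟩ := h3 (t b1) (t (b1 + 1)) (t (b1 + 2)) (hadj b1 (by omega))
      (hadj (b1 + 1) (by omega)) (s - b1 * N) p hp (by
        have : (b1 + 3) * N = b1 * N + 3 * N := by ring
        omega)
    apply hne
    have key : ∀ j, j < 3 * N → img N W (seq3 (t b1) (t (b1 + 1)) (t (b1 + 2))) j
        = img N W t (b1 * N + j) := by
      intro j hj
      have hdiv : (b1 * N + j) / N = b1 + j / N := by
        rw [Nat.mul_comm, Nat.mul_add_div hN]
      have hmod : (b1 * N + j) % N = j % N := by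
        rw [Nat.mul_comm, Nat.mul_add_mod]
      have hlt : j / N < 3 := by
        rw [Nat.div_lt_iff_lt_mul hN]; exact hj
      unfold img
      rw [hdiv, hmod]
      congr 1
      unfold seq3
      interval_cases (j / N) <;> simp
    have hb3 : (b1 + 3) * N = b1 * N + 3 * N := by ring
    rw [key (s - b1 * N + i) (by omega), key (s - b1 * N + p + i) (by omega)]
    have e1 : b1 * N + (s - b1 * N + i) = s + i := by omega
    have e2 : b1 * N + (s - b1 * N + p + i) = s + p + i := by omega
    rw [e1, e2]
    exact hcon i hi
  · push Not at hshort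
    -- a full block inside one half, hence N ∣ p
    have hdvd : N ∣ p := by
      obtain ⟨q, ρ, hρ, hq⟩ : ∃ q ρ, ρ < N ∧ p = q * N + ρ :=
        ⟨p / N, p % N, Nat.mod_lt _ hN, by rw [Nat.mul_comm]; exact (Nat.div_add_mod p N).symm⟩
      by_cases hρ0 : ρ = 0
      · exact ⟨q, by rw [hq, hρ0]; ring⟩
      exfalso
      by_cases hmid : (b0 + 2) * N ≤ s + p
      · -- block b0+1 in the first half; occurs at (b0+1+q)*N+ρ
        have hb2 : (b0 + 2) * N = b0 * N + 2 * N := by ring
        have hb1' : (b0 + 1) * N = b0 * N + N := by ring
        have hbq : (b0 + 1 + q) * N = b0 * N + N + q * N := by ring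
        have hbq1 : (b0 + 1 + q + 1) * N = b0 * N + N + q * N + N := by ring
        have hqm : b0 + 1 + q + 2 ≤ m := by
          have h1 : (b0 + 1 + q + 1) * N < m * N := by
            have : (b0 + 1 + q + 1) * N + ρ ≤ m * N := by
              have h2 : (b0 + 2) * N + p ≤ s + 2 * p := by omega
              omega
            omega
          have := Nat.lt_of_mul_lt_mul_right h1
          omega
        obtain ⟨i, hi, hne⟩ := hsync (t (b0 + 1)) (t (b0 + 1 + q)) (t (b0 + 1 + q + 1)) ρ
          (hadj _ (by omega)) (by omega) hρ
        apply hne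
        have h1 : img N W t ((b0 + 1) * N + i) = W (t (b0 + 1)) i := img_add N hN W t _ _ hi
        have h2 := hcon ((b0 + 1) * N + i - s) (by omega)
        have e1 : s + ((b0 + 1) * N + i - s) = (b0 + 1) * N + i := by omega
        have e2 : s + p + ((b0 + 1) * N + i - s) = (b0 + 1) * N + i + p := by omega
        rw [e1, e2, h1] at h2
        rw [h2]
        by_cases hc : ρ + i < N
        · rw [if_pos hc]
          have e3 : (b0 + 1) * N + i + p = (b0 + 1 + q) * N + (ρ + i) := by omega
          rw [e3, img_add N hN W t _ _ hc]
        · rw [if_neg hc]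
          have e3 : (b0 + 1) * N + i + p = (b0 + 1 + q + 1) * N + (ρ + i - N) := by omega
          rw [e3, img_add N hN W t _ _ (by omega)]
      · push Not at hmid
        -- block j+1 in the second half, j the block of s+p
        obtain ⟨j, τ, hτ, hj⟩ : ∃ j τ, τ < N ∧ s + p = j * N + τ :=
          ⟨(s + p) / N, (s + p) % N, Nat.mod_lt _ hN, by
            rw [Nat.mul_comm]; exact (Nat.div_add_mod (s + p) N).symm⟩
        have hj1 : j ≤ b0 + 1 := by
          by_contra hlt
          push Not at hlt
          have : (b0 + 2) * N ≤ j * N := Nat.mul_le_mul_right N hlt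
          omega
        have hj2 : (j + 2) * N ≤ (b0 + 3) * N := Nat.mul_le_mul_right N (by omega)
        have hjj : (j + 2) * N = j * N + 2 * N := by ring
        have hjj1 : (j + 1) * N = j * N + N := by ring
        have hb3 : (b0 + 3) * N = b0 * N + 3 * N := by ring
        -- occurrence of block j+1 at (j+1)*N - p
        have hq1 : q + 1 ≤ j + 1 := by
          -- (j+1) N - p ≥ s ≥ 0 ; p = qN+ρ
          have : p ≤ j * N + τ := by omega
          have h4 : q * N ≤ j * N + τ := by omega
          by_contra hlt
          push Not at hlt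
          have : (j + 1) * N ≤ q * N := Nat.mul_le_mul_right N (by omega)
          omega
        have hrr : (j + 1) * N = (j - q) * N + N + q * N := by
          have : j = (j - q) + q := by omega
          calc (j + 1) * N = ((j - q) + q + 1) * N := by rw [← this]
            _ = _ := by ring
        have hpos : (j + 1) * N - p = (j - q) * N + (N - ρ) := by omega
        have hqm : (j - q) + 2 ≤ m := by
          have h1 : (j + 2) * N ≤ m * N := by omega
          have := Nat.le_of_mul_le_mul_right h1 hN
          omega
        obtain ⟨i, hi, hne⟩ := hsync (t (j + 1)) (t (j - q)) (t (j - q + 1)) (N - ρ)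
          (hadj _ (by omega)) (by omega) (by omega)
        apply hne
        have h1 : img N W t ((j + 1) * N + i) = W (t (j + 1)) i := img_add N hN W t _ _ hi
        have h2 := hcon ((j + 1) * N + i - (s + p)) (by omega)
        have e1 : s + ((j + 1) * N + i - (s + p)) = (j - q) * N + (N - ρ) + i := by omega
        have e2 : s + p + ((j + 1) * N + i - (s + p)) = (j + 1) * N + i := by omega
        rw [e1, e2, h1] at h2
        rw [← h2]
        by_cases hc : (N - ρ) + i < N
        · rw [if_pos hc]
          have e3 : (j - q) * N + (N - ρ) + i = (j - q) * N + (N - ρ + i) := by omega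
          rw [e3, img_add N hN W t _ _ hc]
        · rw [if_neg hc]
          have e4 : (j - q + 1) * N = (j - q) * N + N := by ring
          have e3 : (j - q) * N + (N - ρ) + i = (j - q + 1) * N + (N - ρ + i - N) := by omega
          rw [e3, img_add N hN W t _ _ (by omega)]
    obtain ⟨P, hP⟩ := hdvd
    have hPpos : 1 ≤ P := by
      rcases Nat.eq_zero_or_pos P with h | h
      · rw [h] at hP; omega
      · exact h
    have hPN : p = P * N := by rw [hP]; ring
    -- blocks b0 < b < b0+P agree
    have hfull : ∀ b, b0 < b → b < b0 + P → cl (t b) = cl (t (b + P)) := by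
      intro b hb1 hb2
      apply hinj
      intro i hi
      have g1 : (b0 + 1) * N ≤ b * N := Nat.mul_le_mul_right N hb1
      have g2 : (b + 1) * N ≤ (b0 + P) * N := Nat.mul_le_mul_right N hb2
      have g3 : (b0 + 1) * N = b0 * N + N := by ring
      have g4 : (b + 1) * N = b * N + N := by ring
      have g5 : (b0 + P) * N = b0 * N + P * N := by ring
      have g6 : (b + P) * N = b * N + P * N := by ring
      have h2 := hcon (b * N + i - s) (by omega)
      have e1 : s + (b * N + i - s) = b * N + i := by omega
      have e2 : s + p + (b * N + i - s) = (b + P) * N + i := by omega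
      rw [e1, e2, img_add N hN W t _ _ hi, img_add N hN W t _ _ hi] at h2
      exact h2
    have hA : ∀ c, σ ≤ c → c < N → W (t b0) c = W (t (b0 + P)) c := by
      intro c hc1 hc2
      have g6 : (b0 + P) * N = b0 * N + P * N := by ring
      have h2 := hcon (c - σ) (by
        have : N ≤ P * N := by nlinarith
        omega)
      have e1 : s + (c - σ) = b0 * N + c := by omega
      have e2 : s + p + (c - σ) = (b0 + P) * N + c := by omega
      rw [e1, e2, img_add N hN W t _ _ hc2, img_add N hN W t _ _ hc2] at h2
      exact h2
    have hB : ∀ c, c < σ → W (t (b0 + P)) c = W (t (b0 + 2 * P)) c := by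
      intro c hc
      have g5 : (b0 + P) * N = b0 * N + P * N := by ring
      have g6 : (b0 + 2 * P) * N = b0 * N + P * N + P * N := by ring
      have g7 : N ≤ P * N := by nlinarith
      have h2 := hcon ((b0 + P) * N + c - s) (by omega)
      have e1 : s + ((b0 + P) * N + c - s) = (b0 + P) * N + c := by omega
      have e2 : s + p + ((b0 + P) * N + c - s) = (b0 + 2 * P) * N + c := by omega
      rw [e1, e2, img_add N hN W t _ _ (by omega), img_add N hN W t _ _ (by omega)] at h2
      exact h2
    have hlen : (b0 + 2 * P) * N + σ ≤ m * N := by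
      have g6 : (b0 + 2 * P) * N = b0 * N + P * N + P * N := by ring
      omega
    have hlen' : b0 + 2 * P ≤ m := by
      have h1 : (b0 + 2 * P) * N ≤ m * N := by omega
      exact Nat.le_of_mul_le_mul_right h1 hN
    by_cases hcA : cl (t b0) = cl (t (b0 + P))
    · -- square of classes at b0
      obtain ⟨i, hi, hne⟩ := ht b0 P hPpos hlen'
      apply hne
      rcases Nat.eq_zero_or_pos i with h | h
      · subst h; exact hcA
      · have := hfull (b0 + i) (by omega) (by omega)
        have e : b0 + i + P = b0 + P + i := by omega
        rw [e] at this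
        exact this
    · rcases Nat.eq_zero_or_pos σ with hσ0 | hσ0
      · apply hcA
        apply hinj
        intro i hi
        exact hA i (by omega) hi
      · have hlen2 : b0 + 2 * P + 1 ≤ m := by
          have h1 : (b0 + 2 * P) * N < m * N := by omega
          exact Nat.lt_of_mul_lt_mul_right h1
        by_cases hcB : cl (t (b0 + P)) = cl (t (b0 + 2 * P))
        · obtain ⟨i, hi, hne⟩ := ht (b0 + 1) P hPpos (by omega)
          apply hne
          by_cases hiP : i = P - 1
          · have e1 : b0 + 1 + i = b0 + P := by omega
            have e2 : b0 + 1 + P + i = b0 + 2 * P := by omega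
            simp only [e1, e2]
            exact hcB
          · have := hfull (b0 + 1 + i) (by omega) (by omega)
            have e : b0 + 1 + i + P = b0 + 1 + P + i := by omega
            rw [e] at this
            exact this
        · obtain ⟨i, hi, hne⟩ := h3 (t b0) (t (b0 + P)) (t (b0 + 2 * P)) hcA hcB σ N (by omega)
            (by omega)
          apply hne
          by_cases hc : σ + i < N
          · have e0 : σ + i = 0 * N + (σ + i) := by omega
            have e1 : σ + N + i = 1 * N + (σ + i) := by omega
            rw [e1]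
            conv_lhs => rw [e0]
            rw [img_add N hN W _ _ _ hc, img_add N hN W _ _ _ hc]
            exact hA _ (by omega) hc
          · have e0 : σ + i = 1 * N + (σ + i - N) := by omega
            have e1 : σ + N + i = 2 * N + (σ + i - N) := by omega
            rw [e1]
            conv_lhs => rw [e0]
            rw [img_add N hN W _ _ _ (by omega), img_add N hN W _ _ _ (by omega)]
            exact hB _ (by omega)

end Pool.Agent.H53.SQ
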