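import Pool.Agent.H53.SQ.Data
import Pool.Agent.H53.SQ.Bits

/-! Final pieces and small words. -/

namespace Pool.Agent.H53.SQ

/-- final pieces of the lengths `19, …, 46`: a bound, the piece, its shuffle, a conduction -/
def tails : List (ℕ × List ℕ × List ℕ × List Bool) := [
  (8, [0, 1, 0, 2, 2, 1, 1, 2, 0, 1, 0, 0, 2, 1, 2, 1, 0, 2, 1],
    [0, 1, 0, 2, 0, 1, 2, 1, 0, 2, 1, 2, 0, 1, 2, 1, 0, 1, 2, 0, 1, 0, 2, 0, 1, 2, 1, 0, 2, 1, 2, 0, 2, 1, 0, 1, 2, 1],
    [false, false, false, false, true, true, false, false, true, true, false, false, false, false, true, true, false, true, true, true, true, false, false, true, false, false, false, true, true, true, true, false, false, true, true, false, true, true]),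
  (8, [0, 1, 0, 2, 2, 1, 1, 2, 0, 1, 0, 0, 2, 1, 1, 2, 0, 2, 0, 1],
    [0, 1, 0, 2, 0, 1, 2, 1, 0, 2, 1, 2, 0, 1, 2, 1, 0, 1, 2, 0, 1, 0, 2, 1, 0, 1, 2, 0, 2, 1, 0, 2, 0, 1, 2, 0, 2, 1, 0, 1],
    [false, false, false, false, true, true, false, false, true, true, false, false, false, false, true, true, false, true, true, true, true, false, false, false, true, false, false, true, true, true, false, false, false, true, true, true, true, false, true, true]),
  (4, [0, 1, 0, 2, 2, 1, 1, 2, 0, 1, 0, 0, 2, 1, 1, 2, 0, 2, 0, 1, 2],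
    [0, 1, 0, 2, 0, 1, 2, 1, 0, 2, 1, 2, 0, 1, 2, 1, 0, 1, 2, 0, 1, 0, 2, 1, 0, 1, 2, 0, 2, 1, 0, 2, 0, 1, 2, 0, 2, 1, 2, 0, 1, 2],
    [false, false, false, false, true, true, false, false, true, true, false, false, false, false, true, true, false, true, true, true, true, false, false, false, true, false, false, true, true, true, false, false, false, true, true, true, true, false, false, true, true, true]),
  (3, [0, 1, 0, 2, 2, 1, 1, 2, 0, 1, 0, 0, 2, 1, 1, 2, 2, 0, 0, 1, 2, 1],
    [0, 1, 0, 2, 0, 1, 2, 1, 0, 2, 1, 2, 0, 1, 2, 1, 0, 1, 2, 0, 1, 0, 2, 1, 0, 1, 2, 0, 2, 1, 2, 0, 1, 0, 2, 1, 2, 0, 2, 1, 0, 1, 2, 1],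
    [false, false, false, false, true, true, false, false, true, true, false, false, false, false, true, true, false, true, true, true, true, false, false, false, true, false, false, true, true, true, false, false, true, false, true, false, true, true, false, false, true, true, true, true]),
  (3, [0, 1, 0, 2, 2, 1, 1, 2, 0, 1, 0, 0, 2, 1, 1, 2, 2, 0, 0, 1, 2, 1, 0],
    [0, 1, 0, 2, 0, 1, 2, 1, 0, 2, 1, 2, 0, 1, 2, 1, 0, 1, 2, 0, 1, 0, 2, 1, 0, 1, 2, 0, 2, 1, 2, 0, 1, 0, 2, 1, 2, 0, 2, 1, 0, 1, 2, 0, 1, 0],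
    [false, false, false, false, true, true, false, false, true, true, false, false, false, false, true, true, false, true, true, true, true, false, false, false, true, false, false, true, true, true, false, false, true, false, true, false, true, true, false, false, true, true, true, false, true, true]),
  (4, [0, 1, 0, 2, 2, 1, 1, 2, 0, 1, 0, 0, 2, 1, 1, 2, 2, 0, 2, 1, 0, 1, 2, 0],
    [0, 1, 0, 2, 0, 1, 2, 1, 0, 2, 1, 2, 0, 1, 2, 1, 0, 1, 2, 0, 1, 0, 2, 1, 0, 1, 2, 0, 2, 1, 2, 0, 1, 2, 1, 0, 2, 1, 2, 0, 2, 1, 0, 2, 0, 1, 2, 0],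
    [false, false, false, false, true, true, false, false, true, true, false, false, false, false, true, true, false, true, true, true, true, false, false, false, true, false, false, true, true, true, false, false, true, false, false, false, true, false, true, true, true, true, true, false, false, true, true, true]),
  (6, [0, 1, 0, 2, 2, 1, 1, 2, 0, 1, 0, 0, 2, 1, 2, 2, 0, 1, 1, 0, 2, 0, 2, 1, 0],
    [0, 1, 0, 2, 0, 1, 2, 1, 0, 2, 1, 2, 0, 1, 2, 1, 0, 1, 2, 0, 1, 0, 2, 0, 1, 2, 0, 2, 1, 2, 0, 1, 2, 1, 0, 2, 0, 1, 2, 0, 2, 1, 0, 2, 0, 1, 0, 2, 1, 0],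
    [false, false, false, false, true, true, false, false, true, true, false, false, false, false, true, true, false, true, true, true, true, false, false, true, false, false, true, true, true, false, false, false, true, false, false, true, true, true, false, false, false, true, true, true, true, false, false, true, true, true]),
  (4, [0, 1, 0, 2, 2, 1, 1, 2, 0, 1, 0, 0, 2, 1, 1, 2, 2, 0, 2, 1, 0, 1, 1, 2, 0, 2],
    [0, 1, 0, 2, 0, 1, 2, 1, 0, 2, 1, 2, 0, 1, 2, 1, 0, 1, 2, 0, 1, 0, 2, 1, 0, 1, 2, 0, 2, 1, 2, 0, 1, 2, 1, 0, 2, 1, 2, 0, 2, 1, 0, 1, 2, 1, 0, 2, 1, 2, 0, 2],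
    [false, false, false, false, true, true, false, false, true, true, false, false, false, false, true, true, false, true, true, true, true, false, false, false, true, false, false, true, true, true, false, false, true, false, false, false, true, false, true, true, true, true, true, false, false, true, false, false, true, true, true, true]),
  (4, [0, 1, 0, 2, 2, 1, 1, 2, 0, 1, 0, 0, 2, 1, 1, 2, 1, 2, 1, 0, 2, 0, 1, 0, 2, 1, 0],
    [0, 1, 0, 2, 0, 1, 2, 1, 0, 2, 1, 2, 0, 1, 2, 1, 0, 1, 2, 0, 1, 0, 2, 1, 0, 1, 2, 1, 0, 2, 1, 2, 0, 1, 2, 1, 0, 1, 2, 0, 2, 1, 0, 1, 2, 1, 0, 2, 0, 1, 0, 2, 1, 0],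
    [false, false, false, false, true, true, false, false, true, true, false, false, false, false, true, true, false, true, true, true, true, false, false, false, true, false, false, false, true, false, false, true, false, true, false, true, false, false, true, false, false, false, false, true, true, true, true, true, true, true, true, true, true, true]),
  (6, [0, 1, 0, 2, 2, 1, 1, 2, 0, 1, 0, 0, 2, 1, 1, 2, 0, 2, 1, 0, 1, 2, 1, 0, 0, 2, 1, 2],
    [0, 1, 0, 2, 0, 1, 2, 1, 0, 2, 1, 2, 0, 1, 2, 1, 0, 1, 2, 0, 2, 1, 0, 1, 2, 1, 0, 2, 0, 1, 0, 2, 1, 0, 1, 2, 1, 0, 2, 1, 2, 0, 1, 0, 2, 0, 1, 2, 1, 0, 1, 2, 0, 2, 1, 2],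
    [false, false, false, false, true, true, false, false, true, true, false, false, false, false, true, true, false, true, true, false, false, false, true, false, false, true, false, false, true, false, true, true, true, false, true, true, false, true, false, false, true, false, true, false, false, true, true, true, true, true, false, false, true, true, true, true]),
  (6, [0, 1, 0, 2, 2, 1, 1, 2, 0, 1, 0, 0, 2, 1, 1, 2, 2, 0, 0, 1, 2, 0, 1, 2, 1, 2, 0, 1, 0],
    [0, 1, 0, 2, 0, 1, 2, 1, 0, 2, 1, 2, 0, 1, 2, 1, 0, 1, 2, 0, 1, 0, 2, 1, 0, 1, 2, 0, 2, 1, 2, 0, 1, 0, 2, 1, 2, 0, 2, 1, 0, 2, 0, 1, 2, 1, 0, 1, 2, 0, 1, 0, 2, 1, 2, 0, 1, 0],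
    [false, false, false, false, true, true, false, false, true, true, false, false, false, false, true, true, false, true, true, true, true, false, false, false, true, false, false, true, true, true, false, false, true, false, true, false, false, false, true, false, true, false, true, false, false, true, false, false, true, true, true, false, true, true, true, true, true, true]),
  (3, [0, 1, 0, 2, 2, 1, 1, 2, 0, 1, 0, 0, 2, 1, 1, 2, 2, 0, 0, 2, 0, 1, 2, 1, 0, 1, 2, 1, 2, 0],
    [0, 1, 0, 2, 0, 1, 2, 1, 0, 2, 1, 2, 0, 1, 2, 1, 0, 1, 2, 0, 1, 0, 2, 1, 0, 1, 2, 0, 2, 1, 2, 0, 1, 0, 2, 0, 1, 2, 1, 0, 2, 1, 2, 0, 2, 1, 0, 2, 0, 1, 2, 1, 0, 1, 2, 0, 2, 1, 2, 0],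
    [false, false, false, false, true, true, false, false, true, true, false, false, false, false, true, true, false, true, true, true, true, false, false, false, true, false, false, true, true, true, false, false, true, false, false, false, false, false, false, false, true, false, true, true, false, false, true, true, true, true, true, true, true, true, false, false, true, true, true, true]),
  (6, [0, 1, 0, 2, 2, 1, 1, 2, 0, 1, 0, 0, 2, 1, 2, 2, 0, 1, 0, 1, 2, 2, 0, 1, 2, 0, 2, 1, 0, 1, 2],
    [0, 1, 0, 2, 0, 1, 2, 1, 0, 2, 1, 2, 0, 1, 2, 1, 0, 1, 2, 0, 1, 0, 2, 0, 1, 2, 0, 2, 1, 2, 0, 1, 0, 2, 1, 2, 0, 2, 1, 0, 2, 0, 1, 2, 1, 0, 2, 1, 2, 0, 2, 1, 0, 1, 2, 0, 2, 1, 2, 0, 1, 2],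
    [false, false, false, false, true, true, false, false, true, true, false, false, false, false, true, true, false, true, true, true, true, false, false, true, false, false, true, true, true, false, false, false, false, true, false, true, true, false, true, true, false, false, false, false, true, false, false, false, true, false, true, false, true, true, true, true, true, true, false, true, true, true]),
  (4, [0, 1, 0, 2, 2, 1, 1, 2, 0, 1, 0, 0, 2, 1, 1, 2, 2, 0, 1, 0, 2, 0, 2, 1, 2, 1, 0, 2, 1, 0, 1, 2],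
    [0, 1, 0, 2, 0, 1, 2, 1, 0, 2, 1, 2, 0, 1, 2, 1, 0, 1, 2, 0, 1, 0, 2, 1, 0, 1, 2, 0, 2, 1, 2, 0, 1, 2, 1, 0, 2, 0, 1, 2, 0, 2, 1, 2, 0, 1, 0, 2, 1, 2, 0, 2, 1, 0, 1, 2, 1, 0, 2, 1, 2, 0, 1, 2],
    [false, false, false, false, true, true, false, false, true, true, false, false, false, false, true, true, false, true, true, true, true, false, false, false, true, false, false, true, true, true, false, false, true, true, false, false, true, true, true, false, false, false, false, false, true, false, false, false, false, true, true, true, true, false, false, true, true, true, true, true, false, true, true, true]),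
  (6, [0, 1, 0, 2, 2, 1, 1, 2, 0, 1, 0, 0, 2, 1, 2, 2, 0, 1, 1, 0, 1, 0, 2, 2, 1, 1, 2, 0, 1, 0, 0, 2, 1],
    [0, 1, 0, 2, 0, 1, 2, 1, 0, 2, 1, 2, 0, 1, 2, 1, 0, 1, 2, 0, 1, 0, 2, 0, 1, 2, 0, 2, 1, 2, 0, 1, 2, 1, 0, 1, 2, 0, 1, 0, 2, 1, 0, 1, 2, 1, 0, 2, 1, 2, 0, 1, 0, 2, 1, 0, 1, 2, 0, 1, 0, 2, 0, 1, 2, 1],
    [false, false, false, false, true, true, false, false, true, true, false, false, false, false, true, true, false, true, true, true, true, false, false, true, false, false, true, true, true, false, false, false, true, false, false, false, true, true, true, false, false, true, true, true, false, false, true, true, false, false, false, false, false, true, true, false, true, true, true, true, true, false, true, false, true, true]),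
  (8, [0, 1, 0, 2, 2, 1, 1, 2, 0, 1, 0, 0, 2, 1, 1, 2, 1, 0, 0, 2, 0, 1, 0, 2, 2, 1, 1, 2, 0, 1, 0, 0, 2, 1],
    [0, 1, 0, 2, 0, 1, 2, 1, 0, 2, 1, 2, 0, 1, 2, 1, 0, 1, 2, 0, 1, 0, 2, 1, 0, 1, 2, 1, 0, 2, 0, 1, 0, 2, 1, 0, 1, 2, 0, 2, 1, 2, 0, 1, 0, 2, 0, 1, 2, 1, 0, 2, 0, 1, 0, 2, 1, 0, 1, 2, 0, 1, 0, 2, 0, 1, 2, 1],
    [false, false, false, false, true, true, false, false, true, true, false, false, false, false, true, true, false, true, true, true, true, false, false, false, true, false, false, false, true, true, false, true, false, false, true, false, false, true, false, false, true, false, true, false, true, true, true, false, false, true, true, true, false, false, false, true, true, false, true, true, true, true, true, false, true, false, true, true]),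
  (6, [0, 1, 0, 2, 2, 1, 1, 2, 0, 1, 0, 0, 2, 1, 1, 2, 0, 2, 1, 0, 0, 1, 0, 2, 2, 1, 1, 2, 0, 1, 0, 0, 2, 1, 2],
    [0, 1, 0, 2, 0, 1, 2, 1, 0, 2, 1, 2, 0, 1, 2, 1, 0, 1, 2, 0, 2, 1, 0, 1, 2, 1, 0, 2, 0, 1, 0, 2, 1, 0, 1, 2, 0, 1, 0, 2, 0, 1, 2, 0, 2, 1, 0, 1, 2, 1, 0, 2, 0, 1, 2, 1, 0, 1, 2, 0, 1, 0, 2, 0, 1, 2, 0, 2, 1, 2],
    [false, false, false, false, true, true, false, false, true, true, false, false, false, false, true, true, false, true, true, false, false, false, true, false, false, true, false, false, true, false, true, true, true, false, true, true, false, false, true, true, false, true, false, true, false, false, true, false, false, true, true, true, false, false, true, true, false, true, true, true, true, false, false, true, false, false, true, true, true, true]),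
  (4, [0, 1, 0, 2, 2, 1, 1, 2, 0, 1, 0, 0, 2, 1, 1, 2, 2, 0, 0, 1, 2, 1, 0, 1, 0, 2, 2, 1, 1, 2, 0, 1, 0, 0, 2, 1],
    [0, 1, 0, 2, 0, 1, 2, 1, 0, 2, 1, 2, 0, 1, 2, 1, 0, 1, 2, 0, 1, 0, 2, 1, 0, 1, 2, 0, 2, 1, 2, 0, 1, 0, 2, 1, 2, 0, 2, 1, 0, 1, 2, 0, 1, 0, 2, 1, 0, 1, 2, 1, 0, 2, 1, 2, 0, 1, 0, 2, 1, 0, 1, 2, 0, 1, 0, 2, 0, 1, 2, 1],
    [false, false, false, false, true, true, false, false, true, true, false, false, false, false, true, true, false, true, true, true, true, false, false, false, true, false, false, true, true, true, false, false, true, false, true, false, true, true, false, false, true, true, true, false, false, false, false, true, true, true, false, false, true, true, false, false, false, false, false, true, true, false, true, true, true, true, true, false, true, false, true, true]),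
  (6, [0, 1, 0, 2, 2, 1, 1, 2, 0, 1, 0, 0, 2, 1, 1, 2, 2, 0, 0, 1, 2, 1, 0, 1, 0, 2, 2, 1, 1, 2, 0, 1, 0, 0, 2, 1, 2],
    [0, 1, 0, 2, 0, 1, 2, 1, 0, 2, 1, 2, 0, 1, 2, 1, 0, 1, 2, 0, 1, 0, 2, 1, 0, 1, 2, 0, 2, 1, 2, 0, 1, 0, 2, 1, 2, 0, 2, 1, 0, 1, 2, 0, 1, 0, 2, 1, 0, 1, 2, 1, 0, 2, 1, 2, 0, 1, 2, 1, 0, 1, 2, 0, 1, 0, 2, 0, 1, 2, 0, 2, 1, 2],
    [false, false, false, false, true, true, false, false, true, true, false, false, false, false, true, true, false, true, true, true, true, false, false, false, true, false, false, true, true, true, false, false, true, false, true, false, true, true, false, false, true, true, true, false, false, false, false, true, true, true, false, false, true, true, false, false, false, false, true, true, false, true, true, true, true, false, false, true, false, false, true, true, true, true]),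
  (6, [0, 1, 0, 2, 2, 1, 1, 2, 0, 1, 0, 0, 2, 1, 1, 2, 2, 0, 0, 1, 2, 1, 0, 2, 0, 1, 0, 2, 2, 1, 1, 2, 0, 1, 0, 0, 2, 1],
    [0, 1, 0, 2, 0, 1, 2, 1, 0, 2, 1, 2, 0, 1, 2, 1, 0, 1, 2, 0, 1, 0, 2, 1, 0, 1, 2, 0, 2, 1, 2, 0, 1, 0, 2, 1, 2, 0, 2, 1, 0, 2, 0, 1, 0, 2, 1, 0, 1, 2, 0, 2, 1, 2, 0, 1, 2, 1, 0, 2, 0, 1, 0, 2, 1, 0, 1, 2, 0, 1, 0, 2, 0, 1, 2, 1],
    [false, false, false, false, true, true, false, false, true, true, false, false, false, false, true, true, false, true, true, true, true, false, false, false, true, false, false, true, true, true, false, false, true, false, true, false, true, true, false, false, false, false, true, true, false, true, false, false, true, false, true, false, false, true, true, false, false, true, true, true, false, false, false, true, true, false, true, true, true, true, true, false, true, false, true, true]),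
  (8, [0, 1, 0, 2, 2, 1, 1, 2, 0, 1, 0, 0, 2, 1, 1, 2, 1, 0, 0, 2, 0, 1, 0, 2, 2, 1, 1, 2, 0, 1, 0, 0, 2, 1, 1, 0, 2, 0, 1],
    [0, 1, 0, 2, 0, 1, 2, 1, 0, 2, 1, 2, 0, 1, 2, 1, 0, 1, 2, 0, 1, 0, 2, 1, 0, 1, 2, 1, 0, 2, 0, 1, 0, 2, 1, 0, 1, 2, 0, 2, 1, 2, 0, 1, 0, 2, 0, 1, 2, 1, 0, 2, 0, 1, 0, 2, 1, 0, 1, 2, 0, 1, 0, 2, 0, 1, 2, 1, 0, 1, 2, 0, 1, 0, 2, 1, 0, 1],
    [false, false, false, false, true, true, false, false, true, true, false, false, false, false, true, true, false, true, true, true, true, false, false, false, true, false, false, false, true, true, false, true, false, false, true, false, false, true, false, false, true, false, true, false, true, true, true, false, false, true, true, true, false, false, false, true, true, false, true, true, true, true, true, false, true, false, true, false, false, true, false, false, true, true, true, false, true, true]),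
  (6, [0, 1, 0, 2, 2, 1, 1, 2, 0, 1, 0, 0, 2, 1, 1, 2, 2, 1, 0, 0, 0, 1, 0, 2, 2, 1, 1, 2, 0, 1, 0, 0, 2, 1, 1, 2, 0, 2, 1, 0],
    [0, 1, 0, 2, 0, 1, 2, 1, 0, 2, 1, 2, 0, 1, 2, 1, 0, 1, 2, 0, 2, 1, 0, 1, 2, 1, 0, 2, 0, 1, 0, 2, 1, 0, 1, 2, 0, 1, 0, 2, 1, 2, 0, 2, 1, 0, 1, 2, 0, 1, 0, 2, 0, 1, 2, 1, 0, 1, 2, 0, 2, 1, 0, 1, 2, 1, 0, 2, 0, 1, 0, 2, 1, 0, 1, 2, 0, 2, 1, 0],
    [false, false, false, false, true, true, false, false, true, true, false, false, false, false, true, true, false, true, true, false, false, false, true, false, false, true, true, false, true, false, false, true, true, false, true, true, false, false, false, true, true, false, true, false, false, true, false, false, true, true, true, true, false, false, true, true, false, true, true, false, false, false, true, false, false, true, false, false, true, false, true, true, true, false, true, true, true, true, true, true]),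
  (11, [0, 1, 0, 2, 2, 1, 1, 2, 0, 1, 0, 0, 2, 1, 1, 2, 1, 2, 0, 1, 0, 0, 1, 0, 2, 2, 1, 1, 2, 0, 1, 0, 0, 2, 1, 1, 2, 0, 2, 1, 0],
    [0, 1, 0, 2, 0, 1, 2, 1, 0, 2, 1, 2, 0, 1, 2, 1, 0, 1, 2, 0, 1, 0, 2, 1, 0, 1, 2, 1, 0, 2, 0, 1, 2, 1, 0, 1, 2, 0, 1, 0, 2, 1, 2, 0, 1, 2, 1, 0, 1, 2, 0, 1, 0, 2, 0, 1, 2, 1, 0, 1, 2, 0, 2, 1, 0, 1, 2, 1, 0, 2, 0, 1, 0, 2, 1, 0, 1, 2, 0, 2, 1, 0],
    [false, false, false, false, true, true, false, false, true, true, false, false, false, false, true, true, false, true, true, true, true, false, false, false, true, false, false, false, true, false, false, false, true, true, false, true, true, false, false, false, false, true, true, true, true, false, false, true, false, false, true, true, true, true, false, false, true, true, false, true, true, false, false, false, true, false, false, true, false, false, true, false, true, true, true, false, true, true, true, true, true, true]),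
  (8, [0, 1, 0, 2, 2, 1, 1, 2, 0, 1, 0, 0, 2, 1, 1, 2, 2, 0, 0, 1, 2, 1, 0, 1, 0, 2, 2, 1, 1, 2, 0, 1, 0, 0, 2, 1, 1, 0, 2, 0, 1, 2],
    [0, 1, 0, 2, 0, 1, 2, 1, 0, 2, 1, 2, 0, 1, 2, 1, 0, 1, 2, 0, 1, 0, 2, 1, 0, 1, 2, 0, 2, 1, 2, 0, 1, 0, 2, 1, 2, 0, 2, 1, 0, 1, 2, 0, 1, 0, 2, 1, 0, 1, 2, 1, 0, 2, 1, 2, 0, 1, 0, 2, 1, 0, 1, 2, 0, 1, 0, 2, 0, 1, 2, 1, 0, 1, 2, 0, 1, 0, 2, 1, 2, 0, 1, 2],
    [false, false, false, false, true, true, false, false, true, true, false, false, false, false, true, true, false, true, true, true, true, false, false, false, true, false, false, true, true, true, false, false, true, false, true, false, true, true, false, false, true, true, true, false, false, false, false, true, true, true, false, false, true, true, false, false, false, false, false, true, true, false, true, true, true, true, true, false, true, false, true, false, false, true, false, false, true, true, true, false, false, true, true, true]),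
  (11, [0, 1, 0, 2, 2, 1, 1, 2, 0, 1, 0, 0, 2, 1, 1, 2, 1, 2, 0, 1, 0, 0, 1, 0, 2, 2, 1, 1, 2, 0, 1, 0, 0, 2, 1, 1, 2, 0, 2, 1, 0, 2, 1],
    [0, 1, 0, 2, 0, 1, 2, 1, 0, 2, 1, 2, 0, 1, 2, 1, 0, 1, 2, 0, 1, 0, 2, 1, 0, 1, 2, 1, 0, 2, 0, 1, 2, 1, 0, 1, 2, 0, 1, 0, 2, 1, 2, 0, 1, 2, 1, 0, 1, 2, 0, 1, 0, 2, 0, 1, 2, 1, 0, 1, 2, 0, 2, 1, 0, 1, 2, 1, 0, 2, 0, 1, 0, 2, 1, 0, 1, 2, 0, 2, 1, 2, 0, 1, 2, 1],
    [false, false, false, false, true, true, false, false, true, true, false, false, false, false, true, true, false, true, true, true, true, false, false, false, true, false, false, false, true, false, false, false, true, true, false, true, true, false, false, false, false, true, true, true, true, false, false, true, false, false, true, true, true, true, false, false, true, true, false, true, true, false, false, false, true, false, false, true, false, false, true, false, true, true, true, false, true, true, true, true, true, false, true, false, true, true]),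
  (11, [0, 1, 0, 2, 2, 1, 1, 2, 0, 1, 0, 0, 2, 1, 1, 2, 1, 2, 0, 1, 0, 0, 1, 0, 2, 2, 1, 1, 2, 0, 1, 0, 0, 2, 1, 1, 2, 2, 0, 1, 0, 2, 0, 1],
    [0, 1, 0, 2, 0, 1, 2, 1, 0, 2, 1, 2, 0, 1, 2, 1, 0, 1, 2, 0, 1, 0, 2, 1, 0, 1, 2, 1, 0, 2, 0, 1, 2, 1, 0, 1, 2, 0, 1, 0, 2, 1, 2, 0, 1, 2, 1, 0, 1, 2, 0, 1, 0, 2, 0, 1, 2, 1, 0, 1, 2, 0, 2, 1, 0, 1, 2, 1, 0, 2, 0, 1, 0, 2, 1, 0, 1, 2, 0, 2, 1, 2, 0, 1, 0, 2, 0, 1],
    [false, false, false, false, true, true, false, false, true, true, false, false, false, false, true, true, false, true, true, true, true, false, false, false, true, false, false, false, true, false, false, false, true, true, false, true, true, false, false, false, false, true, true, true, true, false, false, true, false, false, true, true, true, true, false, false, true, true, false, true, true, false, false, false, true, false, false, true, true, false, false, false, true, true, true, false, true, false, false, true, false, true, true, true, true, true, true, true]),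
  (8, [0, 1, 0, 2, 2, 1, 1, 2, 0, 1, 0, 0, 2, 1, 1, 2, 2, 0, 0, 1, 2, 1, 0, 1, 0, 2, 2, 1, 1, 2, 0, 1, 0, 0, 2, 1, 1, 0, 2, 2, 0, 0, 1, 2, 1],
    [0, 1, 0, 2, 0, 1, 2, 1, 0, 2, 1, 2, 0, 1, 2, 1, 0, 1, 2, 0, 1, 0, 2, 1, 0, 1, 2, 0, 2, 1, 2, 0, 1, 0, 2, 1, 2, 0, 2, 1, 0, 1, 2, 0, 1, 0, 2, 1, 0, 1, 2, 1, 0, 2, 1, 2, 0, 1, 0, 2, 1, 0, 1, 2, 0, 1, 0, 2, 0, 1, 2, 1, 0, 2, 1, 2, 0, 1, 0, 2, 0, 1, 2, 0, 2, 1, 0, 1, 2, 1],
    [false, false, false, false, true, true, false, false, true, true, false, false, false, false, true, true, false, true, true, true, true, false, false, false, true, false, false, true, true, true, false, false, true, false, true, false, true, true, false, false, true, true, true, false, false, false, false, true, true, true, false, false, true, true, false, false, false, false, false, true, true, false, true, true, true, true, true, false, true, false, true, false, false, false, true, false, false, true, true, true, false, false, true, true, false, false, true, true, true, true]),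
  (11, [0, 1, 0, 2, 2, 1, 1, 2, 0, 1, 0, 0, 2, 1, 1, 2, 1, 2, 0, 1, 0, 0, 1, 0, 2, 2, 1, 1, 2, 0, 1, 0, 0, 2, 1, 1, 2, 2, 0, 1, 1, 0, 2, 0, 1, 2],
    [0, 1, 0, 2, 0, 1, 2, 1, 0, 2, 1, 2, 0, 1, 2, 1, 0, 1, 2, 0, 1, 0, 2, 1, 0, 1, 2, 1, 0, 2, 0, 1, 2, 1, 0, 1, 2, 0, 1, 0, 2, 1, 2, 0, 1, 2, 1, 0, 1, 2, 0, 1, 0, 2, 0, 1, 2, 1, 0, 1, 2, 0, 2, 1, 0, 1, 2, 1, 0, 2, 0, 1, 0, 2, 1, 0, 1, 2, 1, 0, 2, 1, 2, 0, 1, 2, 1, 0, 2, 0, 1, 2],
    [false, false, false, false, true, true, false, false, true, true, false, false, false, false, true, true, false, true, true, true, true, false, false, false, true, false, false, false, true, false, false, false, true, true, false, true, true, false, false, false, false, true, true, true, true, false, false, true, false, false, true, true, true, true, false, false, true, true, false, true, true, false, false, false, true, false, false, true, true, false, false, false, true, true, false, false, true, false, true, false, true, false, true, true, true, false, true, true, true, true, true,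 true])]

/-- words of the lengths `3` and `6, …, 18` -/
def smalls : List (ℕ × List ℕ × List ℕ × List Bool) := [
  (3, [0, 1, 2],
    [0, 1, 0, 2, 1, 2],
    [false, false, true, false, true, true]),
  (3, [0, 1, 2, 1, 2, 0],
    [0, 1, 2, 1, 0, 1, 2, 0, 2, 1, 2, 0],
    [false, false, false, false, true, true, false, false, true, true, true, true]),
  (4, [0, 1, 0, 2, 2, 1, 0],
    [0, 1, 0, 2, 0, 1, 2, 0, 2, 1, 2, 0, 1, 0],
    [false, false, false, false, true, true, false, true, true, false, true, false, true, true]),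
  (4, [1, 2, 0, 2, 1, 2, 0, 1],
    [1, 2, 0, 2, 1, 2, 0, 1, 2, 1, 0, 2, 1, 2, 0, 1],
    [false, false, false, false, false, false, false, true, true, false, true, true, true, true, true, true]),
  (3, [0, 1, 2, 2, 1, 0, 1, 0, 2],
    [0, 1, 2, 0, 2, 1, 0, 1, 2, 1, 0, 2, 1, 2, 0, 1, 0, 2],
    [false, false, false, true, false, false, false, true, true, false, false, true, true, false, true, true, true, true]),
  (8, [0, 2, 0, 1, 0, 2, 1, 1, 0, 2],
    [0, 2, 0, 1, 0, 2, 1, 0, 1, 2, 0, 1, 0, 2, 0, 1, 2, 1, 0, 2],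
    [false, false, false, false, false, false, false, true, false, true, true, true, true, true, false, true, false, true, true, true]),
  (4, [0, 2, 0, 1, 0, 2, 1, 2, 0, 1, 2],
    [0, 2, 0, 1, 0, 2, 1, 2, 0, 1, 0, 2, 0, 1, 2, 0, 2, 1, 2, 0, 1, 2],
    [false, false, false, false, false, false, false, false, false, false, true, true, true, true, false, true, true, true, true, true, true, true]),
  (3, [1, 0, 1, 2, 2, 0, 2, 0, 1, 1, 0, 2],
    [1, 0, 1, 2, 1, 0, 2, 0, 1, 2, 0, 2, 1, 2, 0, 1, 0, 2, 0, 1, 2, 1, 0, 2],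
    [false, false, false, false, true, true, false, false, true, false, false, true, false, true, true, false, false, true, true, true, false, true, true, true]),
  (4, [1, 0, 1, 2, 1, 0, 2, 2, 1, 0, 0, 2, 1],
    [1, 0, 1, 2, 1, 0, 2, 1, 2, 0, 1, 2, 1, 0, 1, 2, 0, 2, 1, 0, 2, 0, 1, 0, 2, 1],
    [false, false, false, false, false, false, false, true, false, true, true, true, true, true, false, true, false, true, true, false, false, true, false, true, true, true]),
  (8, [2, 0, 2, 1, 1, 2, 1, 0, 2, 0, 2, 1, 0, 1],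
    [2, 0, 2, 1, 2, 0, 1, 2, 1, 0, 2, 1, 2, 0, 2, 1, 0, 1, 2, 1, 0, 2, 0, 1, 2, 1, 0, 1],
    [false, false, false, false, true, true, false, false, false, false, true, true, false, false, false, false, false, true, true, true, true, true, true, false, true, true, true, true]),
  (2, [1, 0, 1, 2, 0, 0, 2, 2, 0, 2, 1, 1, 1, 0, 2],
    [1, 0, 1, 2, 0, 1, 0, 2, 0, 1, 2, 0, 2, 1, 2, 0, 1, 0, 2, 1, 2, 0, 2, 1, 0, 1, 2, 1, 0, 2],
    [false, false, false, false, false, true, false, false, true, true, false, false, false, false, true, true, false, true, true, false, true, true, true, true, false, true, false, true, true, true]),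
  (4, [1, 0, 1, 2, 2, 1, 2, 0, 2, 0, 1, 0, 2, 1, 0, 1],
    [1, 0, 1, 2, 1, 0, 2, 1, 2, 0, 2, 1, 0, 1, 2, 0, 2, 1, 2, 0, 1, 2, 1, 0, 2, 0, 1, 0, 2, 1, 0, 1],
    [false, false, false, false, true, true, false, false, false, false, false, true, false, false, true, false, false, false, true, false, true, true, false, true, true, true, true, true, true, true, true, true]),
  (4, [0, 2, 0, 1, 1, 2, 1, 2, 0, 0, 1, 0, 2, 1, 0, 1, 2],
    [0, 2, 0, 1, 0, 2, 1, 2, 0, 1, 2, 1, 0, 1, 2, 0, 1, 0, 2, 1, 0, 1, 2, 1, 0, 2, 0, 1, 0, 2, 1, 0, 1, 2],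
    [false, false, false, false, true, true, false, false, true, false, false, true, false, true, true, false, false, false, false, false, false, true, true, false, true, false, true, true, true, true, true, true, true, true]),
  (3, [2, 1, 0, 0, 1, 2, 1, 2, 0, 1, 2, 1, 2, 0, 0, 2, 0, 1],
    [2, 1, 0, 2, 0, 1, 2, 1, 0, 1, 2, 0, 1, 0, 2, 1, 2, 0, 1, 2, 1, 0, 2, 0, 1, 2, 0, 2, 1, 2, 0, 1, 0, 2, 0, 1],
    [false, false, false, true, false, false, false, true, true, false, false, false, false, true, false, false, false, false, true, true, true, false, true, true, true, false, false, true, true, true, true, false, true, true, true, true])]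

end Pool.Agent.H53.SQ
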